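import Mathlib
import Pool.Agent.Helper31K9.RNG.AbsC

set_option autoImplicit false
set_option linter.unusedSectionVars false
set_option linter.unusedVariables false

/-!
# Groups which are regular off a line: the computation in the commutator quotient
-/

namespace Pool.Agent.Helper31K9.ROL

open Finset MonoidAlgebra
open Pool.Agent.Helper31K9.RNG

section
variable {A : Type} [CommGroup A] [Fintype A] [DecidableEq A]

/-- the data in the commutator quotient -/
structure Dat (M Q : Subgroup A) (k α β : ℕ) (d : A → ℤ) : Prop where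
  k2 : 2 ≤ k
  a0 : 0 < α
  b0 : 0 < β
  cM : α * Nat.card M = k
  cQ : β * Nat.card Q + 1 = k
  cA : Nat.card A = Nat.card M * Nat.card Q
  pos : ∀ x, 0 ≤ d x
  sum : ∑ x, d x = k - 1
  cor : ∀ x, corr d x = k * ind (⊥ : Subgroup A) x - α * ind M x - β * ind Q x + α * β

variable {M Q : Subgroup A} {k α β : ℕ} {d : A → ℤ}

theorem Dat.copr (h : Dat M Q k α β d) : (Nat.card M).Coprime (Nat.card Q) := by
  rw [Nat.coprime_iff_gcd_eq_one]
  have h1 : (Nat.card M).gcd (Nat.card Q) ∣ k := (Nat.gcd_dvd_left _ _).trans (h.cM ▸ Dvd.intro_left _ rfl)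
  have h2 : (Nat.card M).gcd (Nat.card Q) ∣ β * Nat.card Q := (Nat.gcd_dvd_right _ _).trans (Dvd.intro_left _ rfl)
  have h3 : (Nat.card M).gcd (Nat.card Q) ∣ 1 := by
    rw [← h.cQ] at h1
    exact (Nat.dvd_add_right h2).1 h1
  exact Nat.dvd_one.1 h3

theorem Dat.disj (h : Dat M Q k α β d) {x : A} (hM : x ∈ M) (hQ : x ∈ Q) : x = 1 := by
  have h1 : orderOf x ∣ Nat.card M := by
    have := orderOf_dvd_natCard (⟨x, hM⟩ : M)
    rwa [Subgroup.orderOf_mk] at this
  have h2 : orderOf x ∣ Nat.card Q := by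
    have := orderOf_dvd_natCard (⟨x, hQ⟩ : Q)
    rwa [Subgroup.orderOf_mk] at this
  exact orderOf_eq_one_iff.1 (Nat.eq_one_of_dvd_coprimes h.copr h1 h2)

theorem Dat.split (h : Dat M Q k α β d) (x : A) : ∃ m ∈ M, ∃ q ∈ Q, x = m * q := by
  have h1 : Function.Injective (fun p : M × Q => (p.1 : A) * p.2) := by
    rintro ⟨⟨a, ha⟩, ⟨b, hb⟩⟩ ⟨⟨a', ha'⟩, ⟨b', hb'⟩⟩ e
    have e' : a * b = a' * b' := e
    have h2 : a'⁻¹ * a = b' * b⁻¹ := by
      rw [inv_mul_eq_iff_eq_mul, ← mul_assoc, ← e', mul_inv_cancel_right]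
    have h3 : a'⁻¹ * a = 1 := h.disj (M.mul_mem (M.inv_mem ha') ha)
      (h2 ▸ Q.mul_mem hb' (Q.inv_mem hb))
    have h4 : a = a' := (inv_mul_eq_one.1 h3).symm
    subst h4
    have h5 : b = b' := mul_left_cancel e'
    subst h5
    rfl
  have h2 : Function.Bijective (fun p : M × Q => (p.1 : A) * p.2) := by
    classical
    have : Fintype M := Fintype.ofFinite M
    have : Fintype Q := Fintype.ofFinite Q
    rw [Fintype.bijective_iff_injective_and_card]
    refine ⟨h1, ?_⟩
    rw [← Nat.card_eq_fintype_card, ← Nat.card_eq_fintype_card, h.cA, Nat.card_prod]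
  obtain ⟨⟨m, q⟩, hx⟩ := h2.2 x
  exact ⟨m, m.2, q, q.2, hx.symm⟩

/-- the sums over the cosets of a subgroup -/
noncomputable def cs (d : A → ℤ) (K : Subgroup A) (x : A) : ℤ := ∑ y, (ind K y) * d (y * x)

theorem cs_sum (d : A → ℤ) (K : Subgroup A) : ∑ x, cs d K x = Nat.card K * ∑ y, d y := by
  unfold cs
  rw [sum_comm, ← sum_ind, sum_mul]
  refine sum_congr rfl fun y _ => ?_
  rw [← mul_sum]
  congr 1
  exact Fintype.sum_equiv (Equiv.mulLeft y) _ _ (fun x => rfl)

theorem cs_sq (d : A → ℤ) (K : Subgroup A) :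
    ∑ x, cs d K x ^ 2 = Nat.card K * ∑ w, ind K w * corr d w := by
  have e1 : ∀ x, cs d K x ^ 2 = ∑ y, ∑ y', ind K y * ind K y' * (d (y * x) * d (y' * x)) := by
    intro x
    unfold cs
    rw [sq, sum_mul_sum]
    refine sum_congr rfl fun y _ => sum_congr rfl fun y' _ => ?_
    ring
  rw [sum_congr rfl fun x _ => e1 x, sum_comm]
  have e2 : ∀ y : A, ∑ x, ∑ y', ind K y * ind K y' * (d (y * x) * d (y' * x)) =
      ind K y * ∑ w, ind K w * corr d w := by
    intro y
    by_cases hy : y ∈ K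
    · rw [ind_of_mem hy, one_mul, sum_comm]
      refine (Fintype.sum_equiv (Equiv.mulRight y) _ _ fun w => ?_).symm
      simp only [Equiv.coe_mulRight]
      rw [← mul_sum, corr_pair, one_mul, mul_inv_cancel_right]
      congr 1
      by_cases hw : w ∈ K
      · rw [ind_of_mem hw, ind_of_mem (K.mul_mem hw hy)]
      · rw [ind_of_not hw, ind_of_not fun h => hw ((K.mul_mem_cancel_right hy).1 h)]
    · rw [ind_of_not hy]
      simp
  rw [sum_congr rfl fun y _ => e2 y, ← sum_mul, sum_ind]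

theorem cs_inv (d : A → ℤ) (K : Subgroup A) {q : A} (hq : q ∈ K) (x : A) :
    cs d K (q * x) = cs d K x := by
  unfold cs
  refine Fintype.sum_equiv (Equiv.mulRight q) _ _ fun y => ?_
  rw [Equiv.coe_mulRight, mul_assoc]
  congr 1
  by_cases hy : y ∈ K
  · rw [ind_of_mem hy, ind_of_mem (K.mul_mem hy hq)]
  · rw [ind_of_not hy, ind_of_not fun h => hy ((K.mul_mem_cancel_right hq).1 h)]

theorem sum_ind_mul_bot (K : Subgroup A) : ∑ w, ind K w * ind (⊥ : Subgroup A) w = 1 := by
  have : ∀ w, ind K w * ind (⊥ : Subgroup A) w = ind (⊥ : Subgroup A) w :=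
    fun w => ind_mul_ind bot_le w
  rw [sum_congr rfl fun w _ => this w, sum_ind, Subgroup.card_bot]
  rfl

theorem Dat.ind_MQ (h : Dat M Q k α β d) (w : A) :
    ind M w * ind Q w = ind (⊥ : Subgroup A) w := by
  by_cases h1 : w ∈ (⊥ : Subgroup A)
  · rw [ind_of_mem h1, ind_of_mem ((bot_le : ⊥ ≤ M) h1), ind_of_mem ((bot_le : ⊥ ≤ Q) h1), one_mul]
  · rw [ind_of_not h1]
    by_cases h2 : w ∈ M
    · rw [ind_of_not (fun h3 => h1 (Subgroup.mem_bot.2 (h.disj h2 h3))), mul_zero]
    · rw [ind_of_not h2, zero_mul]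

theorem Dat.zM (h : Dat M Q k α β d) : (α : ℤ) * Nat.card M = k := by exact_mod_cast h.cM

theorem Dat.zQ (h : Dat M Q k α β d) : (β : ℤ) * Nat.card Q = k - 1 := by
  have := h.cQ
  have h1 : ((β * Nat.card Q + 1 : ℕ) : ℤ) = k := by rw [this]
  push_cast at h1
  linarith

theorem Dat.zA (h : Dat M Q k α β d) : ((Fintype.card A : ℕ) : ℤ) = Nat.card M * Nat.card Q := by
  rw [← Nat.card_eq_fintype_card, h.cA]
  push_cast
  rfl

theorem Dat.csM (h : Dat M Q k α β d) (x : A) : cs d M x = β := by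
  have h1 : ∑ w, ind M w * corr d w = β * (k - 1) := by
    have e : ∀ w, ind M w * corr d w = k * (ind M w * ind (⊥ : Subgroup A) w) - α * ind M w -
        β * ind (⊥ : Subgroup A) w + α * β * ind M w := by
      intro w
      rw [h.cor, ← h.ind_MQ w]
      have e1 := ind_mul_ind (le_refl M) w
      linear_combination (-(α : ℤ)) * e1
    rw [sum_congr rfl fun w _ => e w, sum_add_distrib, sum_sub_distrib, sum_sub_distrib,
      ← mul_sum, ← mul_sum, ← mul_sum, ← mul_sum, sum_ind_mul_bot, sum_ind, sum_ind,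
      Subgroup.card_bot]
    have := h.zM
    push_cast
    linear_combination (-1 : ℤ) * this + (β : ℤ) * this
  have h4 : ∑ x, (cs d M x - β) ^ 2 = 0 := by
    have : ∀ x, (cs d M x - β) ^ 2 = cs d M x ^ 2 - 2 * β * cs d M x + (β : ℤ) ^ 2 :=
      fun x => by ring
    rw [sum_congr rfl fun x _ => this x, sum_add_distrib, sum_sub_distrib, ← mul_sum, cs_sum,
      cs_sq, h1, h.sum, sum_const, card_univ, nsmul_eq_mul, h.zA]
    have := h.zQ
    linear_combination ((β : ℤ) * Nat.card M) * this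
  have h5 := (sum_eq_zero_iff_of_nonneg (fun x _ => sq_nonneg _)).1 h4 x (mem_univ x)
  have h6 : cs d M x - β = 0 := by simpa using h5
  linarith

theorem Dat.csQ (h : Dat M Q k α β d) : ∃ c : A, ∀ x, cs d Q x = α - ind Q (c⁻¹ * x) := by
  have h1 : ∑ w, ind Q w * corr d w = 1 + α * (k - 2) := by
    have e : ∀ w, ind Q w * corr d w = k * (ind Q w * ind (⊥ : Subgroup A) w) -
        α * ind (⊥ : Subgroup A) w - β * ind Q w + α * β * ind Q w := by
      intro w
      rw [h.cor, ← h.ind_MQ w]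
      have e1 := ind_mul_ind (le_refl Q) w
      linear_combination (-(β : ℤ)) * e1
    rw [sum_congr rfl fun w _ => e w, sum_add_distrib, sum_sub_distrib, sum_sub_distrib,
      ← mul_sum, ← mul_sum, ← mul_sum, ← mul_sum, sum_ind_mul_bot, sum_ind, sum_ind,
      Subgroup.card_bot]
    have := h.zQ
    push_cast
    linear_combination (-1 : ℤ) * this + (α : ℤ) * this
  set g : A → ℤ := fun x => α - cs d Q x with hg
  have hgs : ∑ x, g x = Nat.card Q := by
    rw [hg]
    simp only
    rw [sum_sub_distrib, cs_sum, h.sum, sum_const, card_univ, nsmul_eq_mul, h.zA]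
    have := h.zM
    linear_combination (Nat.card Q : ℤ) * this
  have hgq : ∑ x, g x ^ 2 = Nat.card Q := by
    have : ∀ x, g x ^ 2 = cs d Q x ^ 2 - 2 * α * cs d Q x + (α : ℤ) ^ 2 := by
      intro x
      rw [hg]
      ring
    rw [sum_congr rfl fun x _ => this x, sum_add_distrib, sum_sub_distrib, ← mul_sum, cs_sum,
      cs_sq, h1, h.sum, sum_const, card_univ, nsmul_eq_mul, h.zA]
    have := h.zM
    linear_combination ((α : ℤ) * Nat.card Q) * this
  have hg01 : ∀ x, g x ^ 2 - g x = 0 := by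
    have e : ∑ x, (g x ^ 2 - g x) = 0 := by
      rw [sum_sub_distrib, hgs, hgq, sub_self]
    intro x
    refine (sum_eq_zero_iff_of_nonneg (fun x _ => ?_)).1 e x (mem_univ x)
    have := Int.le_self_sq (g x)
    linarith
  have hg' : ∀ x, g x = 0 ∨ g x = 1 := by
    intro x
    have h2 : g x * (g x - 1) = 0 := by
      rw [← hg01 x]
      ring
    rcases mul_eq_zero.1 h2 with h3 | h3
    · exact Or.inl h3
    · exact Or.inr (by linarith)
  obtain ⟨c, hc⟩ : ∃ c, g c ≠ 0 := by
    by_contra hcon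
    push Not at hcon
    rw [sum_eq_zero fun x _ => hcon x] at hgs
    have : 0 < Nat.card Q := Nat.card_pos
    have : (0 : ℤ) < Nat.card Q := by exact_mod_cast this
    omega
  have hc1 : g c = 1 := (hg' c).resolve_left hc
  refine ⟨c, fun x => ?_⟩
  have hge : ∀ x, 0 ≤ g x - ind Q (c⁻¹ * x) := by
    intro x
    by_cases hx : c⁻¹ * x ∈ Q
    · rw [ind_of_mem hx]
      have e : g x = g c := by
        rw [hg]
        simp only
        congr 1
        have := cs_inv d Q hx c
        rw [← this]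
        congr 1
        rw [mul_comm c⁻¹ x, inv_mul_cancel_right]
      rw [e, hc1, sub_self]
    · rw [ind_of_not hx]
      rcases hg' x with h2 | h2 <;> rw [h2] <;> norm_num
  have hs0 : ∑ x, (g x - ind Q (c⁻¹ * x)) = 0 := by
    rw [sum_sub_distrib, hgs, Fintype.sum_equiv (Equiv.mulLeft c⁻¹) (fun x => ind Q (c⁻¹ * x))
      (ind Q) (fun x => rfl), sum_ind, sub_self]
  have h5 := (sum_eq_zero_iff_of_nonneg (fun x _ => hge x)).1 hs0 x (mem_univ x)
  have h6 : (α : ℤ) - cs d Q x - ind Q (c⁻¹ * x) = 0 := h5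
  linarith

/-- the computation in the group algebra -/
theorem ring_key {R : Type} [CommRing R] (D' D EM EQ U s a b : R) (m : ℕ)
    (h1 : D' * D = -a * EM - b * EQ + a * b * U) (h2 : EM * D = b * U)
    (h3 : EQ * D = a * U - s * EQ) (h4 : U * D = -U) (h5 : s * U = U)
    (h6 : (-1 : R) ^ (m + 1) = 1) (h7 : ((m + 1 : ℕ) : R) = -1) :
    D' * D ^ (m + 2) = a * b * U - b * (s ^ (m + 1) * EQ) := by
  have hU : ∀ j : ℕ, U * D ^ j = (-1) ^ j * U := by
    intro j
    induction j with
    | zero => simp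
    | succ j ih =>
      rw [pow_succ, ← mul_assoc, ih, mul_assoc, h4, pow_succ]
      ring
  have hM : ∀ j : ℕ, EM * D ^ (j + 1) = b * ((-1) ^ j * U) := by
    intro j
    rw [pow_succ', ← mul_assoc, h2, mul_assoc, hU]
  have hQ : ∀ j : ℕ, EQ * D ^ j = -((-1) ^ j * (j : R) * a) * U + (-1) ^ j * (s ^ j * EQ) := by
    intro j
    induction j with
    | zero => simp
    | succ j ih =>
      have hs : ∀ i : ℕ, s ^ i * U = U := by
        intro i
        induction i with
        | zero => simp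
        | succ i ih => rw [pow_succ, mul_assoc, h5, ih]
      rw [pow_succ, ← mul_assoc, ih, add_mul, mul_assoc, h4,
        show (-1) ^ j * (s ^ j * EQ) * D = (-1) ^ j * (s ^ j * (EQ * D)) by ring, h3,
        mul_sub, show s ^ j * (a * U) = a * (s ^ j * U) by ring, hs j]
      push_cast
      ring
  have h8 : (-1 : R) ^ m = -1 := by
    have : (-1 : R) ^ m = -((-1) ^ (m + 1)) := by ring
    rw [this, h6]
  calc D' * D ^ (m + 2) = (D' * D) * D ^ (m + 1) := by ring
    _ = -a * (EM * D ^ (m + 1)) - b * (EQ * D ^ (m + 1)) + a * b * (U * D ^ (m + 1)) := by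
        rw [h1]
        ring
    _ = a * b * U - b * (s ^ (m + 1) * EQ) := by
        rw [hM, hQ, hU, h6, h7, h8]
        ring

end

end Pool.Agent.Helper31K9.ROL
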