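import Mathlib
import Pool.Agent.Helper31K9.ROL.Abs1

set_option autoImplicit false
set_option linter.unusedSectionVars false
set_option linter.unusedVariables false

/-!
# Groups which are regular off a line: the computation in the commutator quotient, second part
-/

namespace Pool.Agent.Helper31K9.ROL

open Finset MonoidAlgebra
open Pool.Agent.Helper31K9.RNG

section
variable {A : Type} [CommGroup A] [Fintype A] [DecidableEq A]
variable {M Q : Subgroup A} {k α β : ℕ} {d : A → ℤ}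

theorem single_el (p : ℕ) [Fact p.Prime] (c : A) (f : A → ℤ) :
    (single c 1 : MonoidAlgebra (ZMod p) A) * el p f = el p (fun x => f (c⁻¹ * x)) := by
  unfold el
  rw [mul_sum]
  refine Fintype.sum_equiv (Equiv.mulLeft c) _ _ fun y => ?_
  rw [single_mul_single, one_mul]
  simp only [Equiv.coe_mulLeft, inv_mul_cancel_left]

theorem ind_el (p : ℕ) [Fact p.Prime] (K : Subgroup A) (d : A → ℤ) :
    el p (ind K) * el p d = el p (cs d K) := by
  rw [el_mul]
  apply el_congr
  intro x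
  unfold cs
  congr 1
  refine Fintype.sum_equiv (Equiv.inv A) _ _ fun y => ?_
  simp only [Equiv.inv_apply]
  rw [ind_inv]

theorem el_cmul (p : ℕ) [Fact p.Prime] (c : ℤ) (f : A → ℤ) :
    el p (fun x : A => c * f x) = (c : MonoidAlgebra (ZMod p) A) * el p f := by
  rw [el_smul, zsmul_eq_mul]

theorem el_const (p : ℕ) [Fact p.Prime] (c : ℤ) :
    el p (fun _ : A => c) = (c : MonoidAlgebra (ZMod p) A) * el p (fun _ : A => 1) := by
  rw [← el_cmul]
  exact el_congr p fun x => by rw [mul_one]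

theorem Dat.rep_mod (h : Dat M Q k α β d) {p : ℕ} [Fact p.Prime] (hpk : p ∣ k) :
    ∃ c : A, ∀ x, (p : ℤ) ∣ rep d p x - (α * β - β * ind Q (c⁻¹ * x)) := by
  obtain ⟨c, hc⟩ := h.csQ
  have hp : p.Prime := Fact.out
  obtain ⟨m, hm⟩ := Nat.exists_eq_add_of_le hp.two_le
  set a : MonoidAlgebra (ZMod p) A := (α : MonoidAlgebra (ZMod p) A) with ha
  set b : MonoidAlgebra (ZMod p) A := (β : MonoidAlgebra (ZMod p) A) with hb
  set U : MonoidAlgebra (ZMod p) A := el p (fun _ => 1) with hU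
  set s : MonoidAlgebra (ZMod p) A := single c 1 with hs
  have hk0 : ((k : ℤ) : ZMod p) = 0 := by
    rw [Int.cast_natCast]
    exact (ZMod.natCast_eq_zero_iff k p).2 hpk
  have e1 : el p (fun x => d x⁻¹) * el p d = -a * el p (ind M) - b * el p (ind Q) + a * b * U := by
    rw [el_mul]
    have e : el p (fun x => -(α : ℤ) * ind M x + (-(β : ℤ) * ind Q x + (α * β : ℤ) * 1)) =
        -a * el p (ind M) - b * el p (ind Q) + a * b * U := by
      rw [el_add, el_add, el_cmul, el_cmul, el_cmul, ha, hb, hU]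
      push_cast
      ring
    rw [← e]
    apply el_congr
    intro x
    have : ∑ y, d y⁻¹ * d (y⁻¹ * x) = corr d x := by
      unfold corr
      refine Fintype.sum_equiv (Equiv.inv A) _ _ fun y => ?_
      simp only [Equiv.inv_apply]
      rw [mul_comm y⁻¹ x]
    rw [this, h.cor]
    push_cast at hk0 ⊢
    rw [hk0]
    ring
  have e2 : el p (ind M) * el p d = b * U := by
    rw [ind_el, hb, hU]
    have e := el_const (A := A) p (β : ℤ)
    push_cast at e
    rw [← e]
    exact el_congr p fun x => by rw [h.csM]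
  have e3 : el p (ind Q) * el p d = a * U - s * el p (ind Q) := by
    have e : el p (fun x => (α : ℤ) * 1 + (-1) * ind Q (c⁻¹ * x)) = a * U - s * el p (ind Q) := by
      rw [el_add, el_cmul, el_cmul, ha, hU, hs, single_el]
      push_cast
      ring
    rw [ind_el, ← e]
    exact el_congr p fun x => by rw [hc]; push_cast; ring
  have e4 : U * el p d = -U := by
    have e : el p (fun _ : A => (-1 : ℤ) * 1) = -U := by
      rw [el_cmul, hU]
      push_cast
      ring
    rw [hU, el_mul, ← hU, ← e]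
    apply el_congr
    intro x
    have : ∑ y, 1 * d (y⁻¹ * x) = k - 1 := by
      rw [← h.sum]
      refine Fintype.sum_equiv ((Equiv.inv A).trans (Equiv.mulRight x)) _ _ fun y => ?_
      simp
    rw [this]
    push_cast at hk0 ⊢
    rw [hk0]
    ring
  have e5 : s * U = U := by
    rw [hs, hU, single_el]
  have hcast : ((m + 1 : ℕ) : ZMod p) = -1 := by
    have h1 : ((p : ℕ) : ZMod p) = 0 := ZMod.natCast_self p
    have h2 : ((m + 1 : ℕ) : ZMod p) + 1 = 0 := by
      rw [← h1]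
      have h3 : ((m + 1 : ℕ) : ZMod p) + 1 = ((m + 2 : ℕ) : ZMod p) := by
        push_cast
        ring
      rw [h3]
      congr 1
      omega
    exact eq_neg_of_add_eq_zero_left h2
  have hneg : (-1 : ZMod p) ^ (m + 1) = 1 := by
    have h1 := ZMod.pow_card_sub_one_eq_one (p := p) (a := (-1 : ZMod p)) (by
      rw [neg_ne_zero]
      exact one_ne_zero)
    rwa [show p - 1 = m + 1 by omega] at h1
  have e6 : (-1 : MonoidAlgebra (ZMod p) A) ^ (m + 1) = 1 := by
    have := congrArg (algebraMap (ZMod p) (MonoidAlgebra (ZMod p) A)) hneg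
    rwa [map_pow, map_neg, map_one] at this
  have e7 : ((m + 1 : ℕ) : MonoidAlgebra (ZMod p) A) = -1 := by
    have := congrArg (algebraMap (ZMod p) (MonoidAlgebra (ZMod p) A)) hcast
    rwa [map_natCast, map_neg, map_one] at this
  have key := ring_key _ _ _ _ _ _ _ _ m e1 e2 e3 e4 e5 e6 e7
  rw [show m + 2 = p by omega, el_pow, ← el_rep, hs, single_pow, one_pow, single_el] at key
  refine ⟨c ^ (m + 1), fun x => ?_⟩
  have e8 : el p (fun x => (α * β : ℤ) * 1 + (-(β : ℤ)) * ind Q ((c ^ (m + 1))⁻¹ * x)) =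
      a * b * U - b * el p (fun x => ind Q ((c ^ (m + 1))⁻¹ * x)) := by
    rw [el_add, el_cmul, el_cmul, ha, hb, hU]
    push_cast
    ring
  rw [← e8] at key
  have h9 := congrArg (fun z : MonoidAlgebra (ZMod p) A => z.coeff x) key
  simp only [coeff_el] at h9
  rw [← ZMod.intCast_zmod_eq_zero_iff_dvd]
  rw [Int.cast_sub, h9]
  push_cast
  ring

theorem Dat.rep_eq (h : Dat M Q k α β d) {p : ℕ} [Fact p.Prime] (hpk : p ∣ k)
    (hpm : α * β < p) :
    ∃ c : A, ∀ x, rep d p x = α * β - β * ind Q (c⁻¹ * x) := by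
  obtain ⟨c, hc⟩ := h.rep_mod hpk
  refine ⟨c, ?_⟩
  have hα : (1 : ℤ) ≤ α := by exact_mod_cast h.a0
  have hβ : (1 : ℤ) ≤ β := by exact_mod_cast h.b0
  have hp' : (α : ℤ) * β < p := by exact_mod_cast hpm
  have hrep : ∀ x, 0 ≤ rep d p x := fun x => sum_nonneg fun y _ => mul_nonneg (h.pos _) (h.pos _)
  have hge : ∀ x, 0 ≤ rep d p x - (α * β - β * ind Q (c⁻¹ * x)) := by
    intro x
    obtain ⟨t, ht⟩ := hc x
    rw [ht]
    have h1 : (α : ℤ) * β - β * ind Q (c⁻¹ * x) ≤ α * β := by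
      have : (0 : ℤ) ≤ β * ind Q (c⁻¹ * x) := by
        by_cases hx : c⁻¹ * x ∈ Q
        · rw [ind_of_mem hx]
          linarith
        · rw [ind_of_not hx]
          linarith
      linarith
    have h2 := hrep x
    have h3 : -(p : ℤ) < p * t := by linarith
    have h4 : (0 : ℤ) < p := by nlinarith
    have h5 : -1 < t := by
      by_contra hcon
      push Not at hcon
      nlinarith
    have h6 : 0 ≤ t := by omega
    positivity
  have hs0 : ∑ x, (rep d p x - (α * β - β * ind Q (c⁻¹ * x))) = 0 := by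
    have e : ∑ x, (β : ℤ) * ind Q (c⁻¹ * x) = β * Nat.card Q := by
      rw [← mul_sum,
        Fintype.sum_equiv (Equiv.mulLeft c⁻¹) (fun x => ind Q (c⁻¹ * x)) (ind Q) (fun x => rfl),
        sum_ind]
    rw [sum_sub_distrib, sum_sub_distrib, sum_rep, h.sum, e, sum_const, card_univ, nsmul_eq_mul,
      h.zA]
    have h1 := h.zM
    have h2 := h.zQ
    linear_combination (-((β : ℤ) * Nat.card Q)) * h1 + (1 - (k : ℤ)) * h2
  intro x
  have h5 := (sum_eq_zero_iff_of_nonneg (fun x _ => hge x)).1 hs0 x (mem_univ x)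
  linarith

/-- the elements of `M` with `p`-th power `1` -/
noncomputable def tors (p : ℕ) (M : Subgroup A) : ℕ := Nat.card (tor p (⊥ : Subgroup A) M)

theorem Dat.not_dvd_Q (h : Dat M Q k α β d) {p : ℕ} (hp : p.Prime) (hpk : p ∣ k) :
    ¬ p ∣ Nat.card Q := by
  intro h1
  have h2 : p ∣ β * Nat.card Q := Dvd.dvd.mul_left h1 β
  rw [← h.cQ] at hpk
  exact hp.one_lt.ne' (Nat.dvd_one.1 ((Nat.dvd_add_right h2).1 hpk))

theorem Dat.Q_pow (h : Dat M Q k α β d) {p : ℕ} (hp : p.Prime) (hpk : p ∣ k) {w : A}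
    (hw : w ∈ Q) (hw1 : w ^ p = 1) : w = 1 := by
  have h1 : orderOf w ∣ Nat.card Q := by
    have := orderOf_dvd_natCard (⟨w, hw⟩ : Q)
    rwa [Subgroup.orderOf_mk] at this
  have h2 := orderOf_dvd_of_pow_eq_one hw1
  rcases (Nat.dvd_prime hp).1 h2 with h3 | h3
  · exact orderOf_eq_one_iff.1 h3
  · rw [h3] at h1
    exact absurd h1 (h.not_dvd_Q hp hpk)

/-- an element with `p`-th power in `M` is in `M` -/
theorem Dat.pow_M (h : Dat M Q k α β d) {p : ℕ} (hp : p.Prime) (hpk : p ∣ k) {w : A}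
    (hw : w ^ p ∈ M) : w ∈ M := by
  obtain ⟨m, hm, q, hq, rfl⟩ := h.split w
  rw [mul_pow] at hw
  have h1 : q ^ p ∈ M := (M.mul_mem_cancel_left (M.pow_mem hm p)).1 hw
  have h2 := h.disj h1 (Q.pow_mem hq p)
  rw [h.Q_pow hp hpk hq h2, mul_one]
  exact hm

theorem Dat.c1 (h : Dat M Q k α β d) {p : ℕ} (hp : p.Prime) (hpk : p ∣ k) (w : A) :
    ind M (w ^ p) = ind M w := by
  by_cases h1 : w ∈ M
  · rw [ind_of_mem h1, ind_of_mem (M.pow_mem h1 p)]
  · rw [ind_of_not h1, ind_of_not fun h2 => h1 (h.pow_M hp hpk h2)]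

theorem Dat.c2 (h : Dat M Q k α β d) {p : ℕ} (hp : p.Prime) (hpk : p ∣ k) (w : A) :
    ind (⊥ : Subgroup A) (w ^ p) = ind (tor p (⊥ : Subgroup A) M) w := by
  by_cases h1 : w ^ p ∈ (⊥ : Subgroup A)
  · rw [ind_of_mem h1, ind_of_mem (mem_tor.2 ⟨h.pow_M hp hpk ((bot_le : ⊥ ≤ M) h1), h1⟩)]
  · rw [ind_of_not h1, ind_of_not fun h2 => h1 (mem_tor.1 h2).2]

theorem Dat.c3 (h : Dat M Q k α β d) {p : ℕ} (hp : p.Prime) (hpk : p ∣ k) :
    ∑ w : A, ind Q (w ^ p) = (tors p M : ℤ) * Nat.card Q := by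
  -- `w ^ p ∈ Q` iff `w = m q` with `m ^ p = 1`
  have e : ∑ w : A, ind Q (w ^ p) = ∑ w : A, ind (⊤ : Subgroup A) w * ind Q (w ^ p) := by
    refine sum_congr rfl fun x _ => ?_
    rw [ind_of_mem (Subgroup.mem_top x), one_mul]
  rw [e, sum_ind_pow]
  have h1 : Nat.card (tor p Q (⊤ : Subgroup A)) =
      Nat.card (tor p (⊥ : Subgroup A) M) * Nat.card Q := by
    rw [← Nat.card_prod]
    symm
    refine Nat.card_congr (Equiv.ofBijective (fun x : (tor p (⊥ : Subgroup A) M) × Q =>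
      (⟨(x.1 : A) * x.2, mem_tor.2 ⟨Subgroup.mem_top _, ?_⟩⟩ : tor p Q (⊤ : Subgroup A))) ⟨?_, ?_⟩)
    · rw [mul_pow, Subgroup.mem_bot.1 (mem_tor.1 x.1.2).2, one_mul]
      exact Q.pow_mem x.2.2 p
    · rintro ⟨⟨a, ha⟩, ⟨b, hb⟩⟩ ⟨⟨a', ha'⟩, ⟨b', hb'⟩⟩ e
      have e' : a * b = a' * b' := congrArg Subtype.val e
      have h2 : a'⁻¹ * a = b' * b⁻¹ := by
        rw [inv_mul_eq_iff_eq_mul, ← mul_assoc, ← e', mul_inv_cancel_right]
      have h3 : a'⁻¹ * a = 1 := h.disj (M.mul_mem (M.inv_mem (mem_tor.1 ha').1) (mem_tor.1 ha).1)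
        (h2 ▸ Q.mul_mem hb' (Q.inv_mem hb))
      have h4 : a = a' := (inv_mul_eq_one.1 h3).symm
      subst h4
      have h5 : b = b' := mul_left_cancel e'
      subst h5
      rfl
    · rintro ⟨w, hw⟩
      obtain ⟨m, hm, q, hq, rfl⟩ := h.split w
      have h2 := (mem_tor.1 hw).2
      rw [mul_pow] at h2
      have h3 : m ^ p ∈ Q := (Q.mul_mem_cancel_right (Q.pow_mem hq p)).1 h2
      have h4 := h.disj (M.pow_mem hm p) h3
      exact ⟨⟨⟨m, mem_tor.2 ⟨hm, Subgroup.mem_bot.2 h4⟩⟩, ⟨q, hq⟩⟩, rfl⟩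
  rw [h1]
  push_cast
  rfl

theorem Dat.c4 (h : Dat M Q k α β d) {p : ℕ} (hp : p.Prime) (hpk : p ∣ k) :
    ∑ w : A, ind M w * ind Q (w ^ p) = (tors p M : ℤ) := by
  rw [sum_ind_pow]
  unfold tors
  congr 2
  have : tor p Q M = tor p (⊥ : Subgroup A) M := by
    ext w
    rw [mem_tor, mem_tor]
    constructor
    · rintro ⟨h1, h2⟩
      exact ⟨h1, Subgroup.mem_bot.2 (h.disj (M.pow_mem h1 p) h2)⟩
    · rintro ⟨h1, h2⟩
      exact ⟨h1, (bot_le : ⊥ ≤ Q) h2⟩
  rw [this]

theorem Dat.c5 (h : Dat M Q k α β d) {p : ℕ} (hp : p.Prime) (hpk : p ∣ k) (w : A) :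
    ind Q w * ind (⊥ : Subgroup A) (w ^ p) = ind (⊥ : Subgroup A) w := by
  rw [h.c2 hp hpk, ← h.ind_MQ w]
  by_cases h1 : w ∈ Q
  · rw [ind_of_mem h1, one_mul, mul_one]
    by_cases h2 : w ∈ M
    · have := h.disj h2 h1
      subst this
      rw [ind_of_mem (Subgroup.one_mem _), ind_of_mem h2]
    · rw [ind_of_not h2, ind_of_not fun h3 => h2 (mem_tor.1 h3).1]
  · rw [ind_of_not h1, zero_mul, mul_zero]

theorem ind_sq (K : Subgroup A) (w : A) : ind K w * ind K w = ind K w := ind_mul_ind (le_refl K) w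

theorem Dat.main (h : Dat M Q k α β d) {p : ℕ} (hp : p.Prime) (hpk : p ∣ k)
    (hpm : α * β < p) : ((k : ℤ) - 2 * β) * (k - α * tors p M) = 0 := by
  have : Fact p.Prime := ⟨hp⟩
  obtain ⟨c, hc⟩ := h.rep_eq hpk hpm
  have h1 : ∑ x, rep d p x ^ 2 = (β : ℤ) * (k - 1) * (α * k - 2 * α + 1) := by
    have e : ∀ x, rep d p x ^ 2 = ((α : ℤ) * β) ^ 2 + (β ^ 2 - 2 * α * β ^ 2) * ind Q (c⁻¹ * x) := by
      intro x
      rw [hc]
      have := ind_sq Q (c⁻¹ * x)
      linear_combination ((β : ℤ) ^ 2) * this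
    rw [sum_congr rfl fun x _ => e x, sum_add_distrib, ← mul_sum,
      Fintype.sum_equiv (Equiv.mulLeft c⁻¹) (fun x => ind Q (c⁻¹ * x)) (ind Q) (fun x => rfl),
      sum_ind, sum_const, card_univ, nsmul_eq_mul, h.zA]
    have h2 := h.zM
    have h3 := h.zQ
    linear_combination ((α : ℤ) * β ^ 2 * Nat.card Q) * h2 + (α * β * k + β - 2 * α * β : ℤ) * h3
  rw [sum_rep_sq] at h1
  have h2 : ∑ w, corr d w * corr d (w ^ p) = (k : ℤ) * (k - α - β + α * β) -
      α * (k * tors p M - α * Nat.card M - β * tors p M + α * β * Nat.card M) -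
      β * (k - α - β * Nat.card Q + α * β * Nat.card Q) +
      α * β * (k * tors p M - α * Nat.card M - β * (tors p M * Nat.card Q) +
        α * β * (Nat.card M * Nat.card Q)) := by
    have e : ∀ w, corr d w * corr d (w ^ p) =
        (k : ℤ) * (k - α - β + α * β) * ind (⊥ : Subgroup A) w -
        α * (k * ind (tor p (⊥ : Subgroup A) M) w - α * ind M w - β * (ind M w * ind Q (w ^ p)) +
          α * β * ind M w) -
        β * (k * ind (⊥ : Subgroup A) w - α * ind (⊥ : Subgroup A) w - β * ind Q w +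
          α * β * ind Q w) +
        α * β * (k * ind (tor p (⊥ : Subgroup A) M) w - α * ind M w - β * ind Q (w ^ p) +
          α * β) := by
      intro w
      rw [h.cor, h.cor, h.c2 hp hpk, h.c1 hp hpk]
      have a1 : ind (⊥ : Subgroup A) w * ind (tor p (⊥ : Subgroup A) M) w =
          ind (⊥ : Subgroup A) w := by
        rw [← h.c2 hp hpk]
        exact ind_mul_pow (le_refl _) p w
      have a2 : ind (⊥ : Subgroup A) w * ind M w = ind (⊥ : Subgroup A) w := by
        rw [mul_comm]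
        exact ind_mul_ind bot_le w
      have a3 : ind (⊥ : Subgroup A) w * ind Q (w ^ p) = ind (⊥ : Subgroup A) w :=
        ind_mul_pow bot_le p w
      have a4 : ind M w * ind (tor p (⊥ : Subgroup A) M) w = ind (tor p (⊥ : Subgroup A) M) w := by
        refine ind_mul_ind ?_ w
        intro x hx
        exact (mem_tor.1 hx).1
      have a5 := ind_sq M w
      have a6 : ind Q w * ind (tor p (⊥ : Subgroup A) M) w = ind (⊥ : Subgroup A) w := by
        rw [← h.c2 hp hpk]
        exact h.c5 hp hpk w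
      have a7 : ind Q w * ind M w = ind (⊥ : Subgroup A) w := by
        rw [mul_comm]
        exact h.ind_MQ w
      have a8 : ind Q w * ind Q (w ^ p) = ind Q w := ind_mul_pow (le_refl _) p w
      linear_combination ((k : ℤ) ^ 2) * a1 - (k * α : ℤ) * a2 - (k * β : ℤ) * a3 -
        (α * k : ℤ) * a4 + (α ^ 2 : ℤ) * a5 - (β * k : ℤ) * a6 + (β * α : ℤ) * a7 +
        (β ^ 2 : ℤ) * a8
    rw [sum_congr rfl fun w _ => e w]
    have hbot : ∑ w, ind (⊥ : Subgroup A) w = 1 := by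
      rw [sum_ind, Subgroup.card_bot]
      rfl
    have htor : ∑ w, ind (tor p (⊥ : Subgroup A) M) w = tors p M := by
      rw [sum_ind]
      rfl
    have hone : ∑ _w : A, (1 : ℤ) = Nat.card M * Nat.card Q := by
      rw [sum_const, card_univ, nsmul_eq_mul, h.zA, mul_one]
    have hab : ∑ _w : A, (α : ℤ) * β = α * β * (Nat.card M * Nat.card Q) := by
      rw [← hone, mul_sum]
      simp
    simp only [sum_add_distrib, sum_sub_distrib, ← mul_sum]
    rw [hbot, htor, sum_ind, sum_ind, h.c3 hp hpk, h.c4 hp hpk, sum_const, card_univ,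
      nsmul_eq_mul, h.zA]
    ring
  rw [h2] at h1
  have h3 := h.zM
  have h4 := h.zQ
  have h5 : (α : ℤ) * β * (Nat.card M * Nat.card Q) = k * (k - 1) := by
    linear_combination ((β : ℤ) * Nat.card Q) * h3 + (k : ℤ) * h4
  linear_combination h1 - (α : ℤ) * h3 + (α : ℤ) * β * h3 - (β : ℤ) * h4 + (α : ℤ) * β * h4 +
    (α : ℤ) * (α * β) * h3 + (α * β * tors p M : ℤ) * h4 - (α * β : ℤ) * h5 +
    (α * β : ℤ) * h3 - (α ^ 2 * β : ℤ) * h3

end

end Pool.Agent.Helper31K9.ROL
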