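import Mathlib
import Pool.Agent.Helper31K9.RNG.CntB

set_option autoImplicit false
set_option linter.unusedSectionVars false
set_option linter.unusedVariables false

/-!
# Counting the exceptional orders
-/

namespace Pool.Agent.Helper31K9.ROL

open Finset
open Pool.Agent.Helper31K9.RNG (smooth_card two_pow_card_le sum_card_divisors_le)

/-- the condition on the orders -/
def Cond (P : ℕ → Prop) : Prop :=
  ∀ k, P k → 2 ≤ k → ¬ IsPrimePow k → ∀ s c : ℕ, k * (k - 1) = s ^ 2 * c → Squarefree c →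
    ∀ p : ℕ, p.Prime → p ∣ k → p ≤ s ^ 2

theorem struct {P : ℕ → Prop} (hP : Cond P) {k : ℕ} (hk : 2 ≤ k) (hkp : ¬ IsPrimePow k)
    (hPk : P k) {D j : ℕ} (hkK : D ^ (4 * j + 2) < k) :
    (∃ d, D < d ∧ d ^ 2 ∣ k) ∨ (∃ d, D < d ∧ d ^ 2 ∣ k - 1) ∨ 2 ^ j ≤ k.divisors.card := by
  obtain ⟨c₁, d₁, h1, hc1⟩ := Nat.sq_mul_squarefree k
  obtain ⟨c₂, d₂, h2, hc2⟩ := Nat.sq_mul_squarefree (k - 1)
  by_cases hd1 : D < d₁
  · exact Or.inl ⟨d₁, hd1, h1 ▸ Dvd.intro _ rfl⟩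
  by_cases hd2 : D < d₂
  · exact Or.inr (Or.inl ⟨d₂, hd2, h2 ▸ Dvd.intro _ rfl⟩)
  push Not at hd1 hd2
  right; right
  have hcop : c₁.Coprime c₂ := by
    have e1 : c₁ ∣ k := h1 ▸ Dvd.intro_left _ rfl
    have e2 : c₂ ∣ k - 1 := h2 ▸ Dvd.intro_left _ rfl
    rw [Nat.coprime_iff_gcd_eq_one]
    have e3 := (Nat.gcd_dvd_left c₁ c₂).trans e1
    have e4 := (Nat.gcd_dvd_right c₁ c₂).trans e2
    have e5 := Nat.dvd_sub e3 e4
    have e6 : k - (k - 1) = 1 := by omega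
    rw [e6] at e5
    exact Nat.dvd_one.1 e5
  have hsq : Squarefree (c₁ * c₂) := (Nat.squarefree_mul hcop).2 ⟨hc1, hc2⟩
  have hsm := hP k hPk hk hkp (d₁ * d₂) (c₁ * c₂) (by
    conv_lhs => rw [← h2]
    conv_lhs => rw [← h1]
    ring) hsq
  have hs : (d₁ * d₂) ^ 2 ≤ D ^ 4 := by
    calc (d₁ * d₂) ^ 2 ≤ (D * D) ^ 2 := Nat.pow_le_pow_left (Nat.mul_le_mul hd1 hd2) 2
      _ = D ^ 4 := by ring
  have hc : c₁ ≤ (D ^ 4) ^ c₁.primeFactors.card := smooth_card hc1 fun q hq hqs =>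
    (hsm q hq (hqs.trans (h1 ▸ Dvd.intro_left _ rfl))).trans hs
  have hD : 0 < D := by
    apply Nat.pos_of_ne_zero
    rintro rfl
    have : d₁ = 0 := by omega
    rw [this] at h1
    simp at h1
    omega
  have hj : j ≤ c₁.primeFactors.card := by
    by_contra hlt
    push Not at hlt
    have h3 : c₁ ≤ (D ^ 4) ^ j := hc.trans (Nat.pow_le_pow_right (by positivity) hlt.le)
    have h4 : k ≤ D ^ 2 * (D ^ 4) ^ j := by
      rw [← h1]
      exact Nat.mul_le_mul (Nat.pow_le_pow_left hd1 2) h3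
    have h5 : D ^ 2 * (D ^ 4) ^ j = D ^ (4 * j + 2) := by
      rw [← pow_mul, ← pow_add]
      congr 1
      ring
    omega
  calc 2 ^ j ≤ 2 ^ c₁.primeFactors.card := Nat.pow_le_pow_right (by norm_num) hj
    _ ≤ k.divisors.card := two_pow_card_le (by omega) (h1 ▸ Dvd.intro_left _ rfl)

open Classical in
theorem count_bound {P : ℕ → Prop} (hP : Cond P) (X D j : ℕ) :
    ({k : ℕ | k ≤ X ∧ 2 ≤ k ∧ ¬ IsPrimePow k ∧ P k}.ncard : ℝ) ≤
      ((D : ℝ) ^ (4 * j + 2) + 1) + 2 * (X * (2 / (D + 1))) + X * (1 + Real.log X) / 2 ^ j := by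
  set K := D ^ (4 * j + 2) with hK
  set T0 : Finset ℕ := range (K + 1) with hT0
  set T1 : Finset ℕ := (Ioo D (X + 1)).biUnion (fun d => (Ioc 0 X).filter (fun k => d ^ 2 ∣ k))
    with hT1
  set T2 : Finset ℕ := (Ioc 0 X).filter (fun k => 2 ^ j ≤ k.divisors.card) with hT2
  set T3 : Finset ℕ := T1.image (fun k => k + 1) with hT3
  have hmem : ∀ {m d : ℕ}, 0 < m → m ≤ X → D < d → d ^ 2 ∣ m → m ∈ T1 := by
    intro m d hm hmX hd hdk
    rw [hT1, mem_biUnion]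
    refine ⟨d, ?_, ?_⟩
    · rw [mem_Ioo]
      have h1 := Nat.le_of_dvd (by omega) hdk
      have h2 : d ≤ d ^ 2 := Nat.le_self_pow (by norm_num) d
      omega
    · rw [mem_filter, mem_Ioc]
      exact ⟨⟨by omega, hmX⟩, hdk⟩
  have hsub : {k : ℕ | k ≤ X ∧ 2 ≤ k ∧ ¬ IsPrimePow k ∧ P k} ⊆
      ((T0 ∪ T1 ∪ T2 ∪ T3 : Finset ℕ) : Set ℕ) := by
    rintro k ⟨hkX, hk2, hkp, hPk⟩
    rw [mem_coe, mem_union, mem_union, mem_union]
    by_cases hkK : K < k
    · rcases struct hP hk2 hkp hPk hkK with ⟨d, hd, hdk⟩ | ⟨d, hd, hdk⟩ | h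
      · left; left; right
        exact hmem (by omega) hkX hd hdk
      · right
        rw [hT3, mem_image]
        exact ⟨k - 1, hmem (by omega) (by omega) hd hdk, by omega⟩
      · left; right
        rw [hT2, mem_filter, mem_Ioc]
        exact ⟨⟨by omega, hkX⟩, h⟩
    · left; left; left
      rw [hT0, mem_range]
      omega
  have hc0 : (T0.card : ℝ) = (D : ℝ) ^ (4 * j + 2) + 1 := by
    rw [hT0, card_range, hK]
    push_cast
    rfl
  have hc1 : (T1.card : ℝ) ≤ X * (2 / (D + 1)) := by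
    have h1 : (T1.card : ℝ) ≤
        ∑ d ∈ Ioo D (X + 1), ((((Ioc 0 X).filter (fun k => d ^ 2 ∣ k)).card : ℕ) : ℝ) := by
      have := card_biUnion_le (s := Ioo D (X + 1))
        (t := fun d => (Ioc 0 X).filter (fun k => d ^ 2 ∣ k))
      exact_mod_cast this
    refine h1.trans ?_
    have h2 : ∀ d ∈ Ioo D (X + 1),
        ((((Ioc 0 X).filter (fun k => d ^ 2 ∣ k)).card : ℕ) : ℝ) ≤ X * ((d : ℝ) ^ 2)⁻¹ := by
      intro d _
      rw [Nat.Ioc_filter_dvd_card_eq_div, ← div_eq_mul_inv]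
      have := Nat.cast_div_le (α := ℝ) (m := X) (n := d ^ 2)
      refine this.trans (le_of_eq ?_)
      push_cast
      rfl
    refine (sum_le_sum h2).trans ?_
    rw [← mul_sum]
    exact mul_le_mul_of_nonneg_left (sum_Ioo_inv_sq_le D (X + 1)) (by positivity)
  have hc3 : (T3.card : ℝ) ≤ X * (2 / (D + 1)) := by
    refine le_trans ?_ hc1
    exact_mod_cast card_image_le
  have hc2 : (T2.card : ℝ) ≤ X * (1 + Real.log X) / 2 ^ j := by
    rw [le_div_iff₀ (by positivity)]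
    refine le_trans ?_ (sum_card_divisors_le X)
    have h1 : T2.card * 2 ^ j ≤ ∑ k ∈ Ioc 0 X, k.divisors.card := by
      calc T2.card * 2 ^ j = ∑ k ∈ T2, 2 ^ j := by rw [sum_const, smul_eq_mul]
        _ ≤ ∑ k ∈ T2, k.divisors.card := sum_le_sum fun k hk => (mem_filter.1 hk).2
        _ ≤ ∑ k ∈ Ioc 0 X, k.divisors.card :=
            sum_le_sum_of_subset (filter_subset _ _)
    exact_mod_cast h1
  have hfin : ({k : ℕ | k ≤ X ∧ 2 ≤ k ∧ ¬ IsPrimePow k ∧ P k}.ncard : ℝ) ≤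
      ((T0 ∪ T1 ∪ T2 ∪ T3 : Finset ℕ).card : ℝ) := by
    have := Set.ncard_le_ncard hsub (finite_toSet _)
    rw [Set.ncard_coe_finset] at this
    exact_mod_cast this
  have hun : ((T0 ∪ T1 ∪ T2 ∪ T3 : Finset ℕ).card : ℝ) ≤ T0.card + T1.card + T2.card + T3.card := by
    have h1 := card_union_le (T0 ∪ T1 ∪ T2) T3
    have h2 := card_union_le (T0 ∪ T1) T2
    have h3 := card_union_le T0 T1
    have h4 : (T0 ∪ T1 ∪ T2 ∪ T3).card ≤ T0.card + T1.card + T2.card + T3.card := by omega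
    exact_mod_cast h4
  linarith

theorem count_main {P : ℕ → Prop} (hP : Cond P) (X : ℕ) (hX : 1 ≤ X) :
    ({k : ℕ | k ≤ X ∧ 2 ≤ k ∧ ¬ IsPrimePow k ∧ P k}.ncard : ℝ) ≤
      3000 * X * Real.exp (-(Real.sqrt (Real.log X) / 16)) := by
  set L := Real.log X with hL
  have hX0 : (0 : ℝ) < X := by exact_mod_cast hX
  have hX1 : (1 : ℝ) ≤ X := by exact_mod_cast hX
  have hL0 : 0 ≤ L := Real.log_nonneg hX1
  set l := Nat.log 2 X with hl
  have hXl : 2 ^ l ≤ X := Nat.pow_log_le_self 2 (by omega)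
  have hXl' : X < 2 ^ (l + 1) := Nat.lt_pow_succ_log_self (by norm_num) X
  have hLl : L ≤ l + 1 := by
    have h1 : (X : ℝ) ≤ 2 ^ (l + 1) := by exact_mod_cast hXl'.le
    have h2 : L ≤ Real.log (2 ^ (l + 1)) := Real.log_le_log hX0 h1
    rw [Real.log_pow] at h2
    push_cast at h2
    have h3 := Real.log_two_lt_d9
    have h4 : ((l : ℝ) + 1) * Real.log 2 ≤ (l + 1) * 1 :=
      mul_le_mul_of_nonneg_left (by linarith) (by positivity)
    linarith
  set y := Real.sqrt L with hy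
  have hy0 : 0 ≤ y := Real.sqrt_nonneg L
  have hy2 : y ^ 2 = L := Real.sq_sqrt hL0
  set u := Nat.sqrt (l / 12) with hu
  have hu1 : u ^ 2 ≤ l / 12 := Nat.sqrt_le' _
  have hu2 : l / 12 < (u + 1) ^ 2 := Nat.lt_succ_sqrt' _
  have hu12 : 12 * u ^ 2 ≤ l := by omega
  have key := count_bound hP X (2 ^ u) u
  rw [← hL] at key
  -- the exponent
  have hyu : y ≤ 4 * (u + 1) + 1 := by
    have h1 : l + 1 ≤ 12 * (u + 1) ^ 2 := by omega
    have h2 : (l : ℝ) + 1 ≤ 12 * ((u : ℝ) + 1) ^ 2 := by exact_mod_cast h1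
    have h3 : y ^ 2 ≤ (4 * ((u : ℝ) + 1)) ^ 2 := by
      rw [hy2]
      nlinarith
    have h4 := abs_le_of_sq_le_sq' h3 (by positivity)
    linarith [h4.2]
  have hK : ((((2 : ℕ) ^ u : ℕ) : ℝ)) ^ (4 * u + 2) + 1 ≤ 2 * X / 2 ^ u := by
    rw [le_div_iff₀ (by positivity)]
    push_cast
    have h1 : ((2 : ℝ) ^ u) ^ (4 * u + 2) * 2 ^ u ≤ 2 ^ l := by
      rw [← pow_mul, ← pow_add]
      apply pow_le_pow_right₀ (by norm_num)
      rcases Nat.eq_zero_or_pos u with h0 | h0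
      · rw [h0]
        simp
      · nlinarith
    have h2 : (2 : ℝ) ^ l ≤ X := by exact_mod_cast hXl
    have h3 : (2 : ℝ) ^ u ≤ 2 ^ l := by
      apply pow_le_pow_right₀ (by norm_num)
      rcases Nat.eq_zero_or_pos u with h0 | h0
      · rw [h0]
        simp
      · nlinarith
    nlinarith
  have h2u : 2 * ((X : ℝ) * (2 / (((2 ^ u : ℕ) : ℝ) + 1))) ≤ 4 * X / 2 ^ u := by
    have h1 : (2 : ℝ) / (((2 ^ u : ℕ) : ℝ) + 1) ≤ 2 / 2 ^ u := by
      apply div_le_div_of_nonneg_left (by norm_num) (by positivity)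
      push_cast
      linarith
    calc 2 * ((X : ℝ) * (2 / (((2 ^ u : ℕ) : ℝ) + 1))) ≤ 2 * (X * (2 / 2 ^ u)) := by
          apply mul_le_mul_of_nonneg_left _ (by norm_num)
          exact mul_le_mul_of_nonneg_left h1 hX0.le
      _ = 4 * X / 2 ^ u := by ring
  have htot : ({k : ℕ | k ≤ X ∧ 2 ≤ k ∧ ¬ IsPrimePow k ∧ P k}.ncard : ℝ) ≤
      X * (7 + y ^ 2) / 2 ^ u := by
    have e : (X : ℝ) * (7 + y ^ 2) / 2 ^ u = 2 * X / 2 ^ u + 4 * X / 2 ^ u +
        X * (1 + L) / 2 ^ u := by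
      rw [hy2]
      ring
    rw [e]
    linarith
  refine htot.trans ?_
  -- `7 + y ^ 2 ≤ 519 exp (y / 16)`
  have h5 : 7 + y ^ 2 ≤ 519 * Real.exp (y / 16) := by
    have h1 := Real.quadratic_le_exp_of_nonneg (x := y / 16) (by positivity)
    have h2 : 1 ≤ Real.exp (y / 16) := Real.one_le_exp (by positivity)
    nlinarith
  -- `1 / 2 ^ u ≤ exp (- (y - 5) / 8)`
  have h6 : (1 : ℝ) / 2 ^ u ≤ Real.exp (-((y - 5) / 8)) := by
    rw [div_le_iff₀ (by positivity)]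
    have h1 : Real.exp ((y - 5) / 8) ≤ 2 ^ u := by
      have h2 : (2 : ℝ) ^ u = Real.exp (u * Real.log 2) := by
        rw [mul_comm, Real.exp_mul, Real.exp_log (by norm_num), Real.rpow_natCast]
      rw [h2]
      apply Real.exp_le_exp.2
      have h3 := Real.log_two_gt_d9
      have h4 : (u : ℝ) * (1 / 2) ≤ u * Real.log 2 := mul_le_mul_of_nonneg_left (by linarith)
        (by positivity)
      linarith
    calc (1 : ℝ) = Real.exp (-((y - 5) / 8)) * Real.exp ((y - 5) / 8) := by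
          rw [← Real.exp_add]
          simp
      _ ≤ Real.exp (-((y - 5) / 8)) * 2 ^ u := mul_le_mul_of_nonneg_left h1 (Real.exp_pos _).le
  have h7 : Real.exp (5 / 8) ≤ 3 := by
    have h1 := Real.exp_one_lt_d9
    have h2 : Real.exp (5 / 8) ≤ Real.exp 1 := Real.exp_le_exp.2 (by norm_num)
    linarith
  calc (X : ℝ) * (7 + y ^ 2) / 2 ^ u = X * (7 + y ^ 2) * (1 / 2 ^ u) := by ring
    _ ≤ X * (519 * Real.exp (y / 16)) * Real.exp (-((y - 5) / 8)) := by
        apply mul_le_mul _ h6 (by positivity) (by positivity)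
        exact mul_le_mul_of_nonneg_left h5 hX0.le
    _ = 519 * X * Real.exp (5 / 8) * Real.exp (-(y / 16)) := by
        have e : Real.exp (5 / 8) * Real.exp (-(y / 16)) =
            Real.exp (y / 16) * Real.exp (-((y - 5) / 8)) := by
          rw [← Real.exp_add, ← Real.exp_add]
          congr 1
          ring
        rw [mul_assoc (519 * (X : ℝ)), e]
        ring
    _ ≤ 3000 * X * Real.exp (-(y / 16)) := by
        apply mul_le_mul_of_nonneg_right _ (Real.exp_pos _).le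
        nlinarith [Real.exp_pos (5 / 8 : ℝ)]

end Pool.Agent.Helper31K9.ROL
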