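import Pool.Agent.Helper31K9.ROL.Fin

set_option autoImplicit false
set_option linter.unusedSectionVars false
set_option linter.unusedVariables false

/-!
# Projective planes as symmetric designs
-/

namespace Pool.Agent.Helper31K9.ROL

open Finset
open scoped Pointwise
open Pool.Agent.R116.AF (Aff)

/-- a symmetric design, given by its blocks -/
structure SymDes (v k lam : ℕ) (B : Fin v → Finset (Fin v)) : Prop where
  lt : k < v
  size : ∀ i, (B i).card = k
  rep : ∀ x, (univ.filter (fun i => x ∈ B i)).card = k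
  pair : ∀ x y, x ≠ y → (univ.filter (fun i => x ∈ B i ∧ y ∈ B i)).card = lam

section
variable {n v : ℕ} {B : Fin v → Finset (Fin v)}

theorem SymDes.uniq (h : SymDes v (n + 1) 1 B) {x y i j : Fin v} (hxy : x ≠ y) (h1 : x ∈ B i)
    (h2 : y ∈ B i) (h3 : x ∈ B j) (h4 : y ∈ B j) : i = j := by
  have h5 := (h.pair x y hxy).le
  rw [card_le_one] at h5
  exact h5 i (mem_filter.2 ⟨mem_univ _, h1, h2⟩) j (mem_filter.2 ⟨mem_univ _, h3, h4⟩)

theorem SymDes.line (h : SymDes v (n + 1) 1 B) {x y : Fin v} (hxy : x ≠ y) :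
    ∃ i, x ∈ B i ∧ y ∈ B i := by
  have h1 : 0 < (univ.filter (fun i => x ∈ B i ∧ y ∈ B i)).card := by
    rw [h.pair x y hxy]
    exact one_pos
  obtain ⟨i, hi⟩ := card_pos.1 h1
  rw [mem_filter] at hi
  exact ⟨i, hi.2⟩

theorem SymDes.inj (h : SymDes v (n + 1) 1 B) (hn : 1 ≤ n) {i j : Fin v} (e : B i = B j) :
    i = j := by
  have h1 : 1 < (B i).card := by
    rw [h.size]
    omega
  obtain ⟨x, hx, y, hy, hxy⟩ := one_lt_card.1 h1
  exact h.uniq hxy hx hy (e ▸ hx) (e ▸ hy)

theorem SymDes.meet (h : SymDes v (n + 1) 1 B) (hn : 1 ≤ n) {i j : Fin v} (hij : i ≠ j) :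
    (B i ∩ B j).card = 1 := by
  apply le_antisymm
  · rw [card_le_one]
    intro x hx y hy
    by_contra hxy
    rw [mem_inter] at hx hy
    exact hij (h.uniq hxy hx.1 hy.1 hx.2 hy.2)
  · rw [Nat.one_le_iff_ne_zero, ← Nat.pos_iff_ne_zero, card_pos]
    have h1 : ¬ B i ⊆ B j := by
      intro hsub
      apply hij
      apply h.inj hn
      apply eq_of_subset_of_card_le hsub
      rw [h.size, h.size]
    obtain ⟨x, hx, hxj⟩ := not_subset.1 h1
    have hex : ∀ y ∈ B j, ∃ a, x ∈ B a ∧ y ∈ B a := fun y hy => h.line (fun e => hxj (e ▸ hy))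
    have h2 : ∃ y, ∃ hy : y ∈ B j, (hex y hy).choose = i := by
      have h3 : ((B j).attach.image (fun y => (hex y.1 y.2).choose)) =
          univ.filter (fun a => x ∈ B a) := by
        apply eq_of_subset_of_card_le
        · intro a ha
          rw [mem_image] at ha
          obtain ⟨y, -, rfl⟩ := ha
          exact mem_filter.2 ⟨mem_univ _, (hex y.1 y.2).choose_spec.1⟩
        · rw [card_image_of_injective, card_attach, h.size, h.rep]
          intro y z hyz
          simp only at hyz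
          by_contra hne
          have hne' : y.1 ≠ z.1 := fun e => hne (Subtype.ext e)
          have a1 := (hex y.1 y.2).choose_spec
          have a2 := (hex z.1 z.2).choose_spec
          rw [← hyz] at a2
          have a3 := h.uniq hne' a1.2 a2.2 y.2 z.2
          apply hxj
          rw [← a3]
          exact a1.1
      have h4 : i ∈ univ.filter (fun a => x ∈ B a) := mem_filter.2 ⟨mem_univ _, hx⟩
      rw [← h3, mem_image] at h4
      obtain ⟨y, -, hy⟩ := h4
      exact ⟨y.1, y.2, hy⟩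
    obtain ⟨y, hy, e⟩ := h2
    refine ⟨y, mem_inter.2 ⟨?_, hy⟩⟩
    rw [← e]
    exact (hex y hy).choose_spec.2

/-- the affine plane obtained by deleting a block -/
def affB (B : Fin v → Finset (Fin v)) (j : Fin v) : Finset (Finset {x // x ∉ B j}) :=
  (univ.filter (fun i => i ≠ j)).image (fun i => (B i).subtype (fun x => x ∉ B j))

theorem mem_affB {j : Fin v} {c : Finset {x // x ∉ B j}} :
    c ∈ affB B j ↔ ∃ i, i ≠ j ∧ (B i).subtype (fun x => x ∉ B j) = c := by
  unfold affB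
  simp

theorem SymDes.aff (h : SymDes v (n + 1) 1 B) (hv : v = n ^ 2 + n + 1) (hn : 2 ≤ n) (j : Fin v) :
    Aff n (affB B j) := by
  have hsz : ∀ i, i ≠ j → ((B i).subtype (fun x => x ∉ B j)).card = n := by
    intro i hi
    rw [card_subtype]
    have h1 : (B i).filter (fun x => x ∉ B j) = B i \ B j := by
      ext x
      simp
    have h2 := card_sdiff_add_card_inter (B i) (B j)
    rw [h.meet (by omega) hi, h.size] at h2
    rw [h1]
    omega
  refine ⟨hn, ?_, ?_, ?_, ?_⟩
  · rw [Fintype.card_subtype]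
    have h1 : univ.filter (fun x => x ∉ B j) = univ \ B j := by
      ext x
      simp
    rw [h1, card_sdiff_of_subset (subset_univ _), card_univ, Fintype.card_fin, h.size, hv]
    omega
  · intro b hb
    obtain ⟨i, hi, rfl⟩ := mem_affB.1 hb
    exact hsz i hi
  · intro x y hxy
    have hxy' : x.1 ≠ y.1 := fun e => hxy (Subtype.ext e)
    obtain ⟨i, hx, hy⟩ := h.line hxy'
    refine ⟨_, mem_affB.2 ⟨i, ?_, rfl⟩, mem_subtype.2 hx, mem_subtype.2 hy⟩
    rintro rfl
    exact x.2 hx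
  · intro x y hxy b hb c hc h1 h2 h3 h4
    have hxy' : x.1 ≠ y.1 := fun e => hxy (Subtype.ext e)
    obtain ⟨i, hi, rfl⟩ := mem_affB.1 hb
    obtain ⟨i', hi', rfl⟩ := mem_affB.1 hc
    rw [mem_subtype] at h1 h2 h3 h4
    rw [h.uniq hxy' h1 h2 h3 h4]

end

/-- The data: a projective plane of order `n`, a group of automorphisms which fixes two blocks and
is regular on the points outside the two blocks. -/
structure RegOff (n : ℕ) (B : Fin (n ^ 2 + n + 1) → Finset (Fin (n ^ 2 + n + 1)))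
    (H : Subgroup (Equiv.Perm (Fin (n ^ 2 + n + 1)))) (i j : Fin (n ^ 2 + n + 1)) : Prop where
  des : SymDes (n ^ 2 + n + 1) (n + 1) 1 B
  ne : i ≠ j
  aut : ∀ h ∈ H, ∀ a, ∃ b, (B a).image h = B b
  fi : ∀ h ∈ H, (B i).image h = B i
  fj : ∀ h ∈ H, (B j).image h = B j
  reg : ∀ x y, x ∉ B i ∪ B j → y ∉ B i ∪ B j → ∃! h, h ∈ H ∧ h x = y

section
variable {n : ℕ} {B : Fin (n ^ 2 + n + 1) → Finset (Fin (n ^ 2 + n + 1))}
  {H : Subgroup (Equiv.Perm (Fin (n ^ 2 + n + 1)))} {i j : Fin (n ^ 2 + n + 1)}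

theorem RegOff.mem (h : RegOff n B H i j) {g : Equiv.Perm (Fin (n ^ 2 + n + 1))} (hg : g ∈ H)
    {x : Fin (n ^ 2 + n + 1)} (hx : x ∉ B j) : g x ∉ B j := by
  intro h1
  rw [← h.fj g hg, mem_image] at h1
  obtain ⟨y, hy, e⟩ := h1
  rw [g.injective e] at hy
  exact hx hy

/-- the action on the affine points -/
@[reducible] def RegOff.act (h : RegOff n B H i j) : MulAction H {x // x ∉ B j} where
  smul g x := ⟨(g : Equiv.Perm _) x, h.mem g.2 x.2⟩
  one_smul x := Subtype.ext rfl
  mul_smul g g' x := Subtype.ext rfl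

theorem smul_sub (h : RegOff n B H i j) (g : H) {a b : Fin (n ^ 2 + n + 1)}
    (e : (B a).image (g : Equiv.Perm (Fin (n ^ 2 + n + 1))) = B b) :
    letI := h.act
    g • ((B a).subtype (fun x => x ∉ B j)) = (B b).subtype (fun x => x ∉ B j) := by
  let := h.act
  ext ⟨x, hx⟩
  rw [mem_subtype, ← e, mem_image, mem_smul_finset]
  constructor
  · rintro ⟨⟨y, hy⟩, hy', e'⟩
    rw [mem_subtype] at hy'
    exact ⟨y, hy', congrArg Subtype.val e'⟩
  · rintro ⟨y, hy, hyx⟩
    have hyj : y ∉ B j := by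
      intro h1
      apply hx
      rw [← h.fj g g.2, mem_image]
      exact ⟨y, h1, hyx⟩
    exact ⟨⟨y, hyj⟩, mem_subtype.2 hy, Subtype.ext hyx⟩

theorem RegOff.off (h : RegOff n B H i j) (hn : 2 ≤ n) :
    letI := h.act
    Off H {x // x ∉ B j} n (affB B j) ((B i).subtype (fun x => x ∉ B j)) := by
  let := h.act
  refine ⟨h.des.aff rfl hn j, ?_, mem_affB.2 ⟨i, h.ne, rfl⟩, ?_, ?_, ?_⟩
  · intro g c hc
    obtain ⟨a, ha, rfl⟩ := mem_affB.1 hc
    obtain ⟨b, hb⟩ := h.aut g g.2 a
    rw [smul_sub h g hb]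
    refine mem_affB.2 ⟨b, ?_, rfl⟩
    rintro rfl
    apply ha
    apply h.des.inj (by omega)
    rw [← h.fj g g.2] at hb
    exact image_injective (g : Equiv.Perm _).injective hb
  · intro g
    exact smul_sub h g (h.fi g g.2)
  · intro x y hx hy
    rw [mem_subtype] at hx hy
    obtain ⟨g, ⟨hg, e⟩, -⟩ := h.reg x y (by
      rw [mem_union, not_or]
      exact ⟨hx, x.2⟩) (by
      rw [mem_union, not_or]
      exact ⟨hy, y.2⟩)
    exact ⟨⟨g, hg⟩, Subtype.ext e⟩
  · intro g x hx e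
    rw [mem_subtype] at hx
    have hx' : (x : Fin (n ^ 2 + n + 1)) ∉ B i ∪ B j := by
      rw [mem_union, not_or]
      exact ⟨hx, x.2⟩
    have h1 := (h.reg x x hx' hx').unique (y₁ := (g : Equiv.Perm _)) (y₂ := 1)
      ⟨g.2, congrArg Subtype.val e⟩ ⟨H.one_mem, rfl⟩
    exact Subtype.ext h1

theorem RegOff.main (h : RegOff n B H i j) (hnil : Group.IsNilpotent H) (hn : 2 ≤ n) {p : ℕ}
    (hp : p.Prime) (hpn : p ∣ n) (hlt : Nat.card (commutator H) < p) :
    ∀ q : ℕ, q.Prime → q ∣ n → q = p := by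
  classical
  let := h.act
  have : Fintype H := Fintype.ofFinite H
  exact (h.off hn).main hp hpn hlt

theorem RegOff.small (h : RegOff n B H i j) (hnil : Group.IsNilpotent H) (hn : 2 ≤ n)
    (hnp : ¬ IsPrimePow n) {s c : ℕ} (hs : n * (n - 1) = s ^ 2 * c) (hc : Squarefree c) {p : ℕ}
    (hp : p.Prime) (hpn : p ∣ n) : p ≤ s ^ 2 := by
  classical
  let := h.act
  have : Fintype H := Fintype.ofFinite H
  exact (h.off hn).small hnp hs hc hp hpn

end

end Pool.Agent.Helper31K9.ROL
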