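import Pool.Agent.Helper31K9.ROL.Pl

set_option autoImplicit false
set_option linter.unusedSectionVars false
set_option linter.unusedVariables false

/-!
# Orders of planes with a nilpotent group which is regular off a line
-/

namespace Pool.Agent.Helper31K9.ROL

open Finset
open scoped Pointwise
open Pool.Agent.R116.AF (Aff par par_refl par_symm par_smul NN mem_NN stab_le count_NN Dset orb
  mem_orb card_pairs)
open Pool.Agent.TH66.SG (num cor cor_num sum_num fib)
open Pool.Agent.Helper31K9.RNG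

/-- the abstract structure -/
structure Str (G : Type) [Group G] [Fintype G] [DecidableEq G] (k : ℕ) (D : Finset G)
    (N₁ N₂ : Subgroup G) : Prop where
  two : 2 ≤ k
  c1 : Nat.card N₁ = k
  c2 : Nat.card N₂ = k - 1
  cD : D.card = k - 1
  cG : Nat.card G = k * (k - 1)
  pr : ∀ g : G,
      ((((D ×ˢ D).filter (fun p : G × G => p.1 * p.2⁻¹ = g)).card : ℕ) : ℤ) =
      k * jnd (⊥ : Subgroup G) g - jnd N₁ g - jnd N₂ g + jnd (⊤ : Subgroup G) g

section
variable {G : Type} [Group G] [Fintype G] [DecidableEq G] {k : ℕ} {D : Finset G}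
  {N₁ N₂ : Subgroup G}

theorem Str.cop (h : Str G k D N₁ N₂) : k.Coprime (k - 1) := by
  have hk2 := h.two
  have : k = (k - 1) + 1 := by omega
  conv_lhs => rw [this]
  exact (Nat.coprime_self_add_left (m := k - 1) (n := 1)).2 (Nat.coprime_one_left _)

theorem Str.disj (h : Str G k D N₁ N₂) {x : G} (h1 : x ∈ N₁) (h2 : x ∈ N₂) : x = 1 := by
  have a1 : orderOf x ∣ k := by
    have := orderOf_dvd_natCard (⟨x, h1⟩ : N₁)
    rwa [Subgroup.orderOf_mk, h.c1] at this
  have a2 : orderOf x ∣ k - 1 := by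
    have := orderOf_dvd_natCard (⟨x, h2⟩ : N₂)
    rwa [Subgroup.orderOf_mk, h.c2] at this
  exact orderOf_eq_one_iff.1 (Nat.eq_one_of_dvd_coprimes h.cop a1 a2)

theorem Str.split (h : Str G k D N₁ N₂) (x : G) : ∃ m ∈ N₁, ∃ q ∈ N₂, x = m * q := by
  classical
  have h1 : Function.Injective (fun p : N₁ × N₂ => (p.1 : G) * p.2) := by
    rintro ⟨⟨a, ha⟩, ⟨b, hb⟩⟩ ⟨⟨a', ha'⟩, ⟨b', hb'⟩⟩ e
    have e' : a * b = a' * b' := e
    have h2 : a'⁻¹ * a = b' * b⁻¹ := by
      rw [inv_mul_eq_iff_eq_mul, ← mul_assoc, ← e', mul_inv_cancel_right]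
    have h3 : a'⁻¹ * a = 1 := h.disj (N₁.mul_mem (N₁.inv_mem ha') ha)
      (h2 ▸ N₂.mul_mem hb' (N₂.inv_mem hb))
    have h4 : a = a' := (inv_mul_eq_one.1 h3).symm
    subst h4
    have h5 : b = b' := mul_left_cancel e'
    subst h5
    rfl
  have h2 : Function.Bijective (fun p : N₁ × N₂ => (p.1 : G) * p.2) := by
    rw [Fintype.bijective_iff_injective_and_card]
    refine ⟨h1, ?_⟩
    rw [← Nat.card_eq_fintype_card, ← Nat.card_eq_fintype_card, h.cG, Nat.card_prod, h.c1, h.c2]
  obtain ⟨⟨m, q⟩, hx⟩ := h2.2 x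
  exact ⟨m, m.2, q, q.2, hx.symm⟩

theorem Str.dat (h : Str G k D N₁ N₂) :
    letI : Fintype (Abelianization G) := Fintype.ofFinite _
    letI : DecidableEq (Abelianization G) := Classical.decEq _
    ∃ (M Q : Subgroup (Abelianization G)) (α β : ℕ) (d : Abelianization G → ℤ),
      Dat M Q k α β d ∧ α * β = Nat.card (commutator G) := by
  letI : Fintype (Abelianization G) := Fintype.ofFinite _
  letI : DecidableEq (Abelianization G) := Classical.decEq _
  set φ : G →* Abelianization G := Abelianization.of with hφ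
  have hsurj : Function.Surjective φ := QuotientGroup.mk_surjective
  have hk2 := h.two
  set M := N₁.map φ with hM
  set Q := N₂.map φ with hQ
  set α := Nat.card (N₁ ⊓ φ.ker : Subgroup G) with hα
  set β := Nat.card (N₂ ⊓ φ.ker : Subgroup G) with hβ
  have s1 : α * Nat.card M = k := by
    rw [hα, hM, card_inf_map, h.c1]
  have s2 : β * Nat.card Q = k - 1 := by
    rw [hβ, hQ, card_inf_map, h.c2]
  have htop : (⊤ : Subgroup G).map φ = ⊤ := by
    rw [← MonoidHom.range_eq_map]
    exact MonoidHom.range_eq_top.2 hsurj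
  have hker : Nat.card ((⊤ : Subgroup G) ⊓ φ.ker : Subgroup G) * Nat.card (Abelianization G) =
      k * (k - 1) := by
    have h1 := card_inf_map φ ⊤
    rwa [htop, Subgroup.card_top, Subgroup.card_top, h.cG] at h1
  have hcop : (Nat.card M).Coprime (Nat.card Q) := by
    have t1 : Nat.card M ∣ k := by
      rw [← s1]
      exact Dvd.intro_left _ rfl
    have t2 : Nat.card Q ∣ k - 1 := by
      rw [← s2]
      exact Dvd.intro_left _ rfl
    exact Nat.Coprime.coprime_dvd_left t1 (Nat.Coprime.coprime_dvd_right t2 h.cop)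
  have hA : Nat.card (Abelianization G) = Nat.card M * Nat.card Q := by
    apply le_antisymm
    · rw [← Nat.card_prod]
      apply Nat.card_le_card_of_surjective (fun p : M × Q => (p.1 : Abelianization G) * p.2)
      intro x
      obtain ⟨g, rfl⟩ := hsurj x
      obtain ⟨m, hm, q, hq, rfl⟩ := h.split g
      exact ⟨⟨⟨φ m, Subgroup.mem_map_of_mem φ hm⟩, ⟨φ q, Subgroup.mem_map_of_mem φ hq⟩⟩,
        (map_mul φ m q).symm⟩
    · apply Nat.le_of_dvd Nat.card_pos
      exact hcop.mul_dvd_of_dvd_of_dvd (Subgroup.card_subgroup_dvd_card M)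
        (Subgroup.card_subgroup_dvd_card Q)
  have hkab : Nat.card ((⊤ : Subgroup G) ⊓ φ.ker : Subgroup G) = α * β := by
    have h1 : 0 < Nat.card (Abelianization G) := Nat.card_pos
    apply Nat.eq_of_mul_eq_mul_right h1
    rw [hker, hA, ← s1, show α * Nat.card M - 1 = β * Nat.card Q by rw [s1, s2]]
    ring
  have hker2 : Nat.card (commutator G) = α * β := by
    rw [← hkab, top_inf_eq, hφ, Abelianization.ker_of]
  refine ⟨M, Q, α, β, num φ D, ⟨hk2, Nat.card_pos, Nat.card_pos, s1, by omega, hA, ?_, ?_, ?_⟩,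
    hker2.symm⟩
  · intro x
    unfold num
    exact sum_nonneg fun y _ => by split_ifs <;> norm_num
  · rw [sum_num, h.cD]
    push_cast [Nat.cast_sub (show 1 ≤ k by omega)]
    ring
  · intro x
    have h1 : corr (num φ D) x = cor (num φ D) x := by
      unfold corr cor
      exact sum_congr rfl fun y _ => mul_comm _ _
    rw [h1, cor_num]
    have h2 : ∀ g : G, (if φ g = x then
        ((((D ×ˢ D).filter (fun p : G × G => p.1 * p.2⁻¹ = g)).card : ℕ) : ℤ)
          else 0) = k * (if φ g = x then jnd (⊥ : Subgroup G) g else 0) -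
          (if φ g = x then jnd N₁ g else 0) - (if φ g = x then jnd N₂ g else 0) +
          (if φ g = x then jnd (⊤ : Subgroup G) g else 0) := by
      intro g
      rw [h.pr g]
      by_cases h3 : φ g = x
      · simp only [if_pos h3]
      · simp only [if_neg h3]
        ring
    rw [sum_congr rfl fun g _ => h2 g, sum_add_distrib, sum_sub_distrib, sum_sub_distrib,
      ← mul_sum, cnt_sub, cnt_sub, cnt_sub, cnt_sub, htop, ind_of_mem (Subgroup.mem_top x), hkab,
      bot_inf_eq, Subgroup.card_bot, Subgroup.map_bot]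
    push_cast
    ring

/-- A prime divisor of the order which is larger than the order of the commutator subgroup is the
only prime divisor. -/
theorem Str.main [Group.IsNilpotent G] (h : Str G k D N₁ N₂) {p : ℕ} (hp : p.Prime) (hpk : p ∣ k)
    (hlt : Nat.card (commutator G) < p) : ∀ q : ℕ, q.Prime → q ∣ k → q = p := by
  let : Fintype (Abelianization G) := Fintype.ofFinite _
  let : DecidableEq (Abelianization G) := Classical.decEq _
  obtain ⟨M, Q, α, β, d, hd, hab⟩ := h.dat
  intro q hq hqk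
  have key := hd.main hp hpk (by rw [hab]; exact hlt)
  rcases mul_eq_zero.1 key with h1 | h1
  · have h2 : k = 2 * β := by
      have : (k : ℤ) = 2 * β := by linarith
      exact_mod_cast this
    have h3 := hd.cQ
    have h4 : β ∣ 1 := by
      have h5 : β ∣ β * Nat.card Q + 1 := by
        rw [h3, h2]
        exact Dvd.intro_left _ rfl
      exact (Nat.dvd_add_right (Dvd.intro _ rfl)).1 h5
    have h6 : β = 1 := Nat.dvd_one.1 h4
    rw [h6, mul_one] at h2
    rw [h2] at hpk hqk
    rw [(Nat.prime_dvd_prime_iff_eq hp Nat.prime_two).1 hpk,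
      (Nat.prime_dvd_prime_iff_eq hq Nat.prime_two).1 hqk]
  · have h2 : k = α * tors p M := by
      have : (k : ℤ) = α * tors p M := by linarith
      exact_mod_cast this
    have h3 := hd.cM
    have h4 : Nat.card (tor p (⊥ : Subgroup (Abelianization G)) M) = Nat.card M := by
      have : α * Nat.card M = α * tors p M := by rw [h3, ← h2]
      exact (Nat.eq_of_mul_eq_mul_left hd.a0 this).symm
    have h5 : q ∣ Nat.card M := by
      have h6 := prime_dvd_ab G hq (by rw [h.cG]; exact Dvd.dvd.mul_right hqk _)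
      rw [hd.cA] at h6
      exact ((Nat.Prime.dvd_mul hq).1 h6).resolve_right (hd.not_dvd_Q hq hqk)
    have : Fact q.Prime := ⟨hq⟩
    obtain ⟨x, hx⟩ := exists_prime_orderOf_dvd_card' q h5
    have h7 : tor p (⊥ : Subgroup (Abelianization G)) M = M := by
      apply Subgroup.eq_of_le_of_card_ge (fun w hw => (mem_tor.1 hw).1)
      rw [h4]
    have h8 : (x : Abelianization G) ∈ tor p (⊥ : Subgroup (Abelianization G)) M := by
      rw [h7]
      exact x.2
    have h9 : (x : Abelianization G) ^ p = 1 := Subgroup.mem_bot.1 (mem_tor.1 h8).2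
    have h10 := orderOf_dvd_of_pow_eq_one h9
    rw [Subgroup.orderOf_coe, hx] at h10
    exact (Nat.prime_dvd_prime_iff_eq hq hp).1 h10

end

section
variable {V : Type} [Fintype V] [DecidableEq V] {k : ℕ} {B : Finset (Finset V)} {l : Finset V}
variable {G : Type} [Group G] [Fintype G] [DecidableEq G] [MulAction G V]

theorem Off.str [Group.IsNilpotent G] (h : Off G V k B l) :
    ∃ (D : Finset G) (N₁ N₂ : Subgroup G), Str G k D N₁ N₂ := by
  obtain ⟨D, N₁, N₂, h1, h2, h3, h4, h5⟩ := h.struct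
  exact ⟨D, N₁, N₂, h.aff.two, h1, h2, h3, h4, h5⟩

theorem Off.main [Group.IsNilpotent G] (h : Off G V k B l) {p : ℕ} (hp : p.Prime) (hpk : p ∣ k)
    (hlt : Nat.card (commutator G) < p) : ∀ q : ℕ, q.Prime → q ∣ k → q = p := by
  obtain ⟨D, N₁, N₂, h1⟩ := h.str
  exact h1.main hp hpk hlt

theorem Off.small [Group.IsNilpotent G] (h : Off G V k B l) (hk : ¬ IsPrimePow k) {s c : ℕ}
    (hs : k * (k - 1) = s ^ 2 * c) (hc : Squarefree c) {p : ℕ} (hp : p.Prime) (hpk : p ∣ k) :
    p ≤ s ^ 2 := by
  obtain ⟨D, N₁, N₂, h1⟩ := h.str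
  have h2 := comm_card_dvd G (by rw [h1.cG, hs]) hc
  have hs0 : 0 < s ^ 2 := by
    apply Nat.pos_of_ne_zero
    intro h3
    have := h1.two
    rw [h3, zero_mul] at hs
    rcases mul_eq_zero.1 hs with h4 | h4 <;> omega
  have h3 := Nat.le_of_dvd hs0 h2
  by_contra hcon
  push Not at hcon
  apply hk
  have h4 := h1.main hp hpk (by omega)
  have h5 := h1.two
  rw [isPrimePow_iff_unique_prime_dvd]
  exact ⟨p, ⟨hp, hpk⟩, fun q hq => h4 q hq.1 hq.2⟩

end

end Pool.Agent.Helper31K9.ROL
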