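import Mathlib
import Pool.Agent.TH66.SG.Nilp
import Pool.Agent.Helper31K9.RNG.PlaneA

set_option autoImplicit false
set_option linter.unusedSectionVars false
set_option linter.unusedVariables false

/-!
# Finite nilpotent groups: Hall subgroups and the commutator quotient
-/

namespace Pool.Agent.Helper31K9.ROL

open Finset

theorem hall (G : Type) [Group G] [Finite G] [hnil : Group.IsNilpotent G] {a b : ℕ}
    (hG : Nat.card G = a * b) (hab : a.Coprime b) :
    ∃ H : Subgroup G, H.Normal ∧ Nat.card H = b ∧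
      ∀ K : Subgroup G, (Nat.card K).Coprime a → K ≤ H := by
  classical
  have ha : 0 < a := Nat.pos_of_ne_zero (by
    rintro rfl
    rw [zero_mul] at hG
    exact Nat.card_pos.ne' hG)
  have hb : 0 < b := Nat.pos_of_ne_zero (by
    rintro rfl
    rw [mul_zero] at hG
    exact Nat.card_pos.ne' hG)
  obtain ⟨E⟩ := ((Group.isNilpotent_of_finite_tfae (G := G)).out 0 4).mp hnil
  set f : G →* (∀ p : (Nat.card G).primeFactors, ∀ P : Sylow p G, P) := E.symm.toMonoidHom with hf
  have hinj : ∀ x : G, f x = 1 → x = 1 := by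
    intro x hx
    have : E.symm x = E.symm 1 := by
      rw [map_one]
      exact hx
    exact E.symm.injective this
  have hsyl : ∀ (q : (Nat.card G).primeFactors), (q : ℕ) ∣ a → ∀ P : Sylow q G,
      Nat.card P ∣ a := by
    intro q hqa P
    have hq : (q : ℕ).Prime := Nat.prime_of_mem_primeFactors q.2
    have : Fact (q : ℕ).Prime := ⟨hq⟩
    rw [P.card_eq_multiplicity]
    have h2 : ¬ (q : ℕ) ∣ b := by
      intro h3
      have := Nat.dvd_gcd hqa h3
      rw [hab] at this
      exact hq.one_lt.ne' (Nat.dvd_one.1 this)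
    have h4 : ∀ r : ℕ, ¬ r ∣ b → (Nat.card G).factorization r = a.factorization r := by
      intro r hr
      rw [hG, Nat.factorization_mul ha.ne' hb.ne', Finsupp.add_apply,
        Nat.factorization_eq_zero_of_not_dvd hr, add_zero]
    rw [h4 q h2]
    exact Nat.ordProj_dvd a q
  have hkey : ∀ (x : G) (r : (Nat.card G).primeFactors) (P : Sylow r G) (n : ℕ),
      n.Coprime r → x ^ n = 1 → f x r P = 1 := by
    intro x r P n hn hx
    have hr : (r : ℕ).Prime := Nat.prime_of_mem_primeFactors r.2
    have : Fact (r : ℕ).Prime := ⟨hr⟩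
    have h1 : (f x r P) ^ n = 1 := by
      have h2 : f (x ^ n) = 1 := by rw [hx, map_one]
      rw [map_pow] at h2
      exact congrFun (congrFun h2 r) P
    obtain ⟨j, hj⟩ := P.isPGroup' (f x r P)
    have h4 := orderOf_dvd_of_pow_eq_one h1
    have h5 := orderOf_dvd_of_pow_eq_one hj
    have h7 := Nat.eq_one_of_dvd_coprimes (Nat.Coprime.pow_right j hn) h4 h5
    exact orderOf_eq_one_iff.1 h7
  let H : Subgroup G :=
    { carrier := {x | ∀ q : (Nat.card G).primeFactors, (q : ℕ) ∣ a → ∀ P : Sylow q G, f x q P = 1}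
      one_mem' := by
        intro q _ P
        rw [map_one]
        rfl
      mul_mem' := by
        intro a b ha hb q hq P
        rw [map_mul, Pi.mul_apply, Pi.mul_apply, ha q hq P, hb q hq P, one_mul]
      inv_mem' := by
        intro a ha q hq P
        rw [map_inv, Pi.inv_apply, Pi.inv_apply, ha q hq P, inv_one] }
  have hH : ∀ x, x ∈ H ↔ ∀ q : (Nat.card G).primeFactors, (q : ℕ) ∣ a → ∀ P : Sylow q G,
      f x q P = 1 := fun x => Iff.rfl
  have hHn : H.Normal := by
    refine ⟨fun x hx g => ?_⟩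
    rw [hH] at hx ⊢
    intro q hq P
    rw [map_mul, map_mul, map_inv, Pi.mul_apply, Pi.mul_apply, Pi.mul_apply, Pi.mul_apply,
      hx q hq P, Pi.inv_apply, Pi.inv_apply, mul_one, mul_inv_cancel]
  have hsub : ∀ K : Subgroup G, (Nat.card K).Coprime a → K ≤ H := by
    intro K hK x hx
    rw [hH]
    intro r hr P
    refine hkey x r P (Nat.card K) (Nat.Coprime.coprime_dvd_right hr hK) ?_
    have h1 : orderOf x ∣ Nat.card K := by
      have := orderOf_dvd_natCard (⟨x, hx⟩ : K)
      rwa [Subgroup.orderOf_mk] at this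
    exact orderOf_dvd_iff_pow_eq_one.1 h1
  have hα : (Nat.card H).Coprime a := by
    rw [Nat.coprime_iff_gcd_eq_one]
    by_contra hne
    obtain ⟨q, hq, hqd⟩ := Nat.exists_prime_and_dvd hne
    have : Fact q.Prime := ⟨hq⟩
    obtain ⟨x, hx⟩ := exists_prime_orderOf_dvd_card' q (hqd.trans (Nat.gcd_dvd_left _ _))
    have hqn : q ∣ a := hqd.trans (Nat.gcd_dvd_right _ _)
    have hxq : (x : G) ^ q = 1 := by
      have h1 : orderOf (x : G) = q := by rw [Subgroup.orderOf_coe, hx]
      rw [← h1]
      exact pow_orderOf_eq_one _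
    have hx1 : (x : G) = 1 := by
      apply hinj
      funext r P
      by_cases hrn : (r : ℕ) ∣ a
      · exact (hH x).1 x.2 r hrn P
      · have hr : (r : ℕ).Prime := Nat.prime_of_mem_primeFactors r.2
        refine hkey x r P q ?_ hxq
        rw [Nat.coprime_primes hq hr]
        rintro rfl
        exact hrn hqn
    have hx2 : x = 1 := Subtype.ext hx1
    rw [hx2, orderOf_one] at hx
    exact hq.one_lt.ne hx
  have hβ : (Nat.card (G ⧸ H)).Coprime b := by
    rw [Nat.coprime_iff_gcd_eq_one]
    by_contra hne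
    obtain ⟨q, hq, hqd⟩ := Nat.exists_prime_and_dvd hne
    have : Fact q.Prime := ⟨hq⟩
    obtain ⟨y, hy⟩ := exists_prime_orderOf_dvd_card' q (hqd.trans (Nat.gcd_dvd_left _ _))
    have hqm : q ∣ b := hqd.trans (Nat.gcd_dvd_right _ _)
    obtain ⟨x, rfl⟩ := QuotientGroup.mk_surjective y
    have h1 : x ^ a ∈ H := by
      rw [hH]
      intro r hrn P
      rw [map_pow, Pi.pow_apply, Pi.pow_apply]
      apply orderOf_dvd_iff_pow_eq_one.1
      exact (orderOf_dvd_natCard _).trans (hsyl r hrn P)
    have h2 : (QuotientGroup.mk x : G ⧸ H) ^ a = 1 := by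
      rw [← QuotientGroup.mk_pow, QuotientGroup.eq_one_iff]
      exact h1
    have h3 := orderOf_dvd_of_pow_eq_one h2
    rw [hy] at h3
    have := Nat.dvd_gcd h3 hqm
    rw [hab] at this
    exact hq.one_lt.ne' (Nat.dvd_one.1 this)
  refine ⟨H, hHn, ?_, hsub⟩
  have h1 := H.card_mul_index
  rw [hG, Subgroup.index_eq_card, mul_comm a b] at h1
  rcases Pool.Agent.Helper31K9.RNG.coprime_split h1 hα hβ.symm with h2 | h2 | h2
  · exact h2.1
  · exact absurd h2 Nat.card_pos.ne'
  · exact absurd h2 Nat.card_pos.ne'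

/-- a prime divisor of the order of a nilpotent group divides the order of the commutator
quotient -/
theorem prime_dvd_ab (G : Type) [Group G] [Finite G] [Group.IsNilpotent G] {p : ℕ} (hp : p.Prime)
    (hpG : p ∣ Nat.card G) : p ∣ Nat.card (Abelianization G) := by
  have : Fact p.Prime := ⟨hp⟩
  obtain ⟨φ, hφ⟩ := Pool.Agent.TH66.SG.nilp_quot G p hpG
  have h1 : Function.Surjective (Abelianization.lift φ) := by
    intro x
    obtain ⟨g, hg⟩ := hφ x
    exact ⟨Abelianization.of g, by rw [Abelianization.lift_apply_of]; exact hg⟩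
  have h2 := Subgroup.card_dvd_of_surjective _ h1
  simpa using h2

theorem comm_card_dvd (G : Type) [Group G] [Finite G] [Group.IsNilpotent G] {c s : ℕ}
    (hG : Nat.card G = s ^ 2 * c) (hc : Squarefree c) : Nat.card (commutator G) ∣ s ^ 2 := by
  have h1 : c ∣ Nat.card (Abelianization G) := by
    have h2 : c = ∏ p ∈ c.primeFactors, p := (Nat.prod_primeFactors_of_squarefree hc).symm
    rw [h2]
    refine Finset.prod_primes_dvd _ ?_ ?_
    · intro p hp
      exact (Nat.prime_of_mem_primeFactors hp).prime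
    · intro p hp
      refine prime_dvd_ab G (Nat.prime_of_mem_primeFactors hp) ?_
      rw [hG]
      exact Dvd.dvd.mul_left (Nat.dvd_of_mem_primeFactors hp) _
  have h2 := (commutator G).card_mul_index
  rw [Subgroup.index_eq_card] at h2
  change Nat.card (commutator G) * Nat.card (Abelianization G) = _ at h2
  obtain ⟨r, hr⟩ := h1
  have hc0 : 0 < c := Nat.pos_of_ne_zero (by
    rintro rfl
    rw [mul_zero] at hG
    exact Nat.card_pos.ne' hG)
  refine ⟨r, ?_⟩
  rw [hG, hr] at h2
  apply Nat.eq_of_mul_eq_mul_right hc0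
  rw [← h2]
  ring

end Pool.Agent.Helper31K9.ROL
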