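import Pool.Agent.Helper31K9.ROL.Des

set_option autoImplicit false
set_option linter.unusedSectionVars false
set_option linter.unusedVariables false

/-!
# The desarguesian planes
-/

namespace Pool.Agent.Helper31K9.ROL

open Finset

section
variable {K : Type} [Field K] [Fintype K] [DecidableEq K]

/-- the points (and the lines) of the projective plane over `K` -/
abbrev Pt (K : Type) : Type := (K × K) ⊕ Option K

/-- incidence of a point with a line -/
def inc : Pt K → Pt K → Prop
  | Sum.inl (x, y), Sum.inl (m, b) => y = m * x + b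
  | Sum.inl (x, _), Sum.inr (some a) => x = a
  | Sum.inl _, Sum.inr none => False
  | Sum.inr (some m'), Sum.inl (m, _) => m' = m
  | Sum.inr none, Sum.inl _ => False
  | Sum.inr (some _), Sum.inr (some _) => False
  | Sum.inr none, Sum.inr (some _) => True
  | Sum.inr _, Sum.inr none => True

/-- the points of a line -/
def pts : Pt K → Finset (Pt K)
  | Sum.inl (m, b) => insert (Sum.inr (some m)) (univ.image (fun x : K => Sum.inl (x, m * x + b)))
  | Sum.inr (some a) => insert (Sum.inr none) (univ.image (fun y : K => Sum.inl (a, y)))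
  | Sum.inr none => univ.image Sum.inr

theorem mem_pts (x L : Pt K) : x ∈ pts L ↔ inc x L := by
  rcases x with ⟨x, y⟩ | (_ | m') <;> rcases L with ⟨m, b⟩ | (_ | a)
  all_goals simp [pts, inc]
  all_goals try (constructor <;> intro h <;> exact h.symm)

theorem card_pts (L : Pt K) : (pts L).card = Fintype.card K + 1 := by
  rcases L with ⟨m, b⟩ | (_ | a)
  · simp only [pts]
    rw [card_insert_of_notMem, card_image_of_injective, card_univ]
    · intro x y h
      simp only [Sum.inl.injEq, Prod.mk.injEq] at h
      exact h.1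
    · simp
  · simp only [pts]
    rw [card_image_of_injective _ Sum.inr_injective, card_univ, Fintype.card_option]
  · simp only [pts]
    rw [card_insert_of_notMem, card_image_of_injective, card_univ]
    · intro x y h
      simpa using h
    · simp

/-- the lines through a point -/
def lns : Pt K → Finset (Pt K)
  | Sum.inl (x, y) => insert (Sum.inr (some x)) (univ.image (fun m : K => Sum.inl (m, y - m * x)))
  | Sum.inr (some m) => insert (Sum.inr none) (univ.image (fun b : K => Sum.inl (m, b)))
  | Sum.inr none => univ.image Sum.inr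

theorem mem_lns (x L : Pt K) : L ∈ lns x ↔ inc x L := by
  rcases x with ⟨x, y⟩ | (_ | m') <;> rcases L with ⟨m, b⟩ | (_ | a)
  all_goals simp [lns, inc]
  all_goals try (constructor <;> intro h <;> first | exact h.symm | (rw [← h]; ring) | (rw [h]; ring))

theorem card_lns (x : Pt K) : (lns x).card = Fintype.card K + 1 := by
  rcases x with ⟨x, y⟩ | (_ | m)
  · simp only [lns]
    rw [card_insert_of_notMem, card_image_of_injective, card_univ]
    · intro x y h
      simp only [Sum.inl.injEq, Prod.mk.injEq] at h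
      exact h.1
    · simp
  · simp only [lns]
    rw [card_image_of_injective _ Sum.inr_injective, card_univ, Fintype.card_option]
  · simp only [lns]
    rw [card_insert_of_notMem, card_image_of_injective, card_univ]
    · intro x y h
      simpa using h
    · simp

theorem inc_line (x y : Pt K) (hxy : x ≠ y) : ∃ L, inc x L ∧ inc y L := by
  rcases x with ⟨x, y'⟩ | (_ | m') <;> rcases y with ⟨z, w⟩ | (_ | m)
  · by_cases h : x = z
    · exact ⟨Sum.inr (some x), by simp [inc], by simp [inc, h]⟩
    · have hxz : z - x ≠ 0 := sub_ne_zero.2 (Ne.symm h)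
      refine ⟨Sum.inl ((w - y') / (z - x), y' - (w - y') / (z - x) * x), ?_, ?_⟩
      · simp only [inc]
        ring
      · simp only [inc]
        field_simp
        ring
  · exact ⟨Sum.inr (some x), by simp [inc], by simp [inc]⟩
  · exact ⟨Sum.inl (m, y' - m * x), by simp [inc], by simp [inc]⟩
  · exact ⟨Sum.inr (some z), by simp [inc], by simp [inc]⟩
  · exact absurd rfl hxy
  · exact ⟨Sum.inr none, by simp [inc], by simp [inc]⟩
  · exact ⟨Sum.inl (m', w - m' * z), by simp [inc], by simp [inc]⟩
  · exact ⟨Sum.inr none, by simp [inc], by simp [inc]⟩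
  · exact ⟨Sum.inr none, by simp [inc], by simp [inc]⟩

theorem inc_uniq (x y L M : Pt K) (hxy : x ≠ y) (h1 : inc x L) (h2 : inc y L) (h3 : inc x M)
    (h4 : inc y M) : L = M := by
  rcases x with ⟨x, y'⟩ | (_ | m') <;> rcases y with ⟨z, w⟩ | (_ | m) <;>
    rcases L with ⟨a, b⟩ | (_ | a) <;> rcases M with ⟨c, d⟩ | (_ | c) <;>
    simp only [inc, Sum.inl.injEq, Sum.inr.injEq, Prod.mk.injEq, ne_eq, not_true_eq_false,
      Option.some.injEq, reduceCtorEq] at *
  all_goals try (subst_vars; simp_all; done)
  have e : (a - c) * (x - z) = 0 := by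
    linear_combination h3 - h1 + h2 - h4
  rcases mul_eq_zero.1 e with h | h
  · have hac : a = c := sub_eq_zero.1 h
    refine ⟨hac, ?_⟩
    rw [hac] at h1
    linear_combination h3 - h1
  · exfalso
    have hxz : x = z := sub_eq_zero.1 h
    apply hxy
    refine ⟨hxz, ?_⟩
    rw [h1, h2, hxz]

/-- the group on the points -/
def ap (b : K) (c : Kˣ) : Pt K → Pt K
  | Sum.inl (x, y) => Sum.inl (c * x, y + b)
  | Sum.inr (some m) => Sum.inr (some ((c⁻¹ : Kˣ) * m))
  | Sum.inr none => Sum.inr none

/-- the group on the lines -/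
def al (b : K) (c : Kˣ) : Pt K → Pt K
  | Sum.inl (m, d) => Sum.inl ((c⁻¹ : Kˣ) * m, d + b)
  | Sum.inr (some a) => Sum.inr (some (c * a))
  | Sum.inr none => Sum.inr none

theorem ap_one (x : Pt K) : ap 0 1 x = x := by
  rcases x with ⟨x, y⟩ | (_ | m) <;> simp [ap]

theorem ap_mul (b b' : K) (c c' : Kˣ) (x : Pt K) :
    ap b c (ap b' c' x) = ap (b + b') (c * c') x := by
  rcases x with ⟨x, y⟩ | (_ | m)
  · simp only [ap, Units.val_mul]
    congr 2
    · ring
    · ring
  · simp [ap]
  · simp only [ap, mul_inv, Units.val_mul]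
    congr 2
    ring

theorem inc_ap {b : K} {c : Kˣ} {x L : Pt K} (h : inc x L) : inc (ap b c x) (al b c L) := by
  have hc : (c : K) ≠ 0 := c.ne_zero
  rcases x with ⟨x, y⟩ | (_ | m') <;> rcases L with ⟨m, d⟩ | (_ | a) <;>
    simp only [inc, ap, al] at *
  · rw [h, Units.val_inv_eq_inv_val]
    field_simp
    ring
  · rw [h]
  · rw [h]

/-- the group as a group of permutations -/
def tp : (Multiplicative K × Kˣ) →* Equiv.Perm (Pt K) where
  toFun w :=
    { toFun := ap w.1.toAdd w.2
      invFun := ap (w.1⁻¹).toAdd (w.2⁻¹)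
      left_inv := fun x => by
        rw [ap_mul]
        simp [ap_one]
      right_inv := fun x => by
        rw [ap_mul]
        simp [ap_one] }
  map_one' := by
    ext x
    simp [ap_one]
  map_mul' a b := by
    ext x
    simp [ap_mul]

theorem tp_apply (w : Multiplicative K × Kˣ) (x : Pt K) : tp w x = ap w.1.toAdd w.2 x := rfl

theorem ap_symm {b : K} {c : Kˣ} (x : Pt K) : ap (-b) c⁻¹ (ap b c x) = x := by
  rw [ap_mul]
  simp [ap_one]

theorem al_symm {b : K} {c : Kˣ} (x : Pt K) : al (-b) c⁻¹ (al b c x) = x := by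
  rcases x with ⟨x, y⟩ | (_ | m) <;> simp [al]

theorem inc_ap_iff {b : K} {c : Kˣ} {x L : Pt K} : inc (ap b c x) (al b c L) ↔ inc x L := by
  constructor
  · intro h
    have := inc_ap (b := -b) (c := c⁻¹) h
    rwa [ap_symm, al_symm] at this
  · exact inc_ap

variable {N : ℕ} (e : Pt K ≃ Fin N)

/-- the blocks -/
def blk (a : Fin N) : Finset (Fin N) := (pts (e.symm a)).map e.toEmbedding

theorem mem_blk {x a : Fin N} : x ∈ blk e a ↔ inc (e.symm x) (e.symm a) := by
  unfold blk
  rw [mem_map_equiv, mem_pts]

theorem symDes {q : ℕ} (hq : Fintype.card K = q) (hN : q + 1 < N) :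
    SymDes N (q + 1) 1 (blk e) := by
  refine ⟨hN, ?_, ?_, ?_⟩
  · intro a
    unfold blk
    rw [card_map, card_pts, hq]
  · intro x
    have : univ.filter (fun a => x ∈ blk e a) = (lns (e.symm x)).map e.toEmbedding := by
      ext a
      rw [mem_filter, mem_blk, mem_map_equiv, mem_lns]
      simp
    rw [this, card_map, card_lns, hq]
  · intro x y hxy
    have hxy' : e.symm x ≠ e.symm y := fun h => hxy (e.symm.injective h)
    obtain ⟨L, h1, h2⟩ := inc_line _ _ hxy'
    rw [card_eq_one]
    refine ⟨e L, ?_⟩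
    ext a
    rw [mem_filter, mem_blk, mem_blk, mem_singleton]
    constructor
    · rintro ⟨-, h3, h4⟩
      rw [inc_uniq _ _ _ _ hxy' h1 h2 h3 h4, Equiv.apply_symm_apply]
    · rintro rfl
      rw [Equiv.symm_apply_apply]
      exact ⟨mem_univ _, h1, h2⟩

/-- the group on `Fin N` -/
def tf : (Multiplicative K × Kˣ) →* Equiv.Perm (Fin N) where
  toFun w := (e.symm.trans (tp w)).trans e
  map_one' := by
    ext x
    simp
  map_mul' a b := by
    ext x
    simp

theorem tf_apply (w : Multiplicative K × Kˣ) (x : Fin N) :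
    e.symm (tf e w x) = ap w.1.toAdd w.2 (e.symm x) := by
  change e.symm (e (tp w (e.symm x))) = _
  rw [Equiv.symm_apply_apply, tp_apply]

theorem image_blk (w : Multiplicative K × Kˣ) (a : Fin N) :
    (blk e a).image (tf e w) = blk e (e (al w.1.toAdd w.2 (e.symm a))) := by
  ext x
  rw [mem_image, mem_blk, Equiv.symm_apply_apply]
  constructor
  · rintro ⟨y, hy, rfl⟩
    rw [mem_blk] at hy
    rw [tf_apply]
    exact inc_ap hy
  · intro h
    obtain ⟨y, rfl⟩ := (tf e w).surjective x
    refine ⟨y, ?_, rfl⟩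
    rw [tf_apply, inc_ap_iff] at h
    exact (mem_blk e).2 h

end

/-- every prime power is the order of a plane with an abelian group of this type -/
theorem exists_primePow {n : ℕ} (hn : IsPrimePow n) :
    ∃ (B : Fin (n ^ 2 + n + 1) → Finset (Fin (n ^ 2 + n + 1)))
      (H : Subgroup (Equiv.Perm (Fin (n ^ 2 + n + 1)))) (i j : Fin (n ^ 2 + n + 1)),
      RegOff n B H i j ∧ Group.IsNilpotent H := by
  classical
  obtain ⟨p, r, hp, hr, rfl⟩ := (isPrimePow_nat_iff _).1 hn
  have : Fact p.Prime := ⟨hp⟩
  let K := GaloisField p r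
  let : Fintype K := Fintype.ofFinite K
  have hcK : Fintype.card K = p ^ r := by
    rw [← Nat.card_eq_fintype_card]
    exact GaloisField.card p r hr.ne'
  have hcV : Fintype.card (Pt K) = (p ^ r) ^ 2 + p ^ r + 1 := by
    rw [Fintype.card_sum, Fintype.card_prod, Fintype.card_option, hcK]
    ring
  let e : Pt K ≃ Fin ((p ^ r) ^ 2 + p ^ r + 1) := Fintype.equivFinOfCardEq hcV
  refine ⟨blk e, (tf e).range, e (Sum.inr (some 0)), e (Sum.inr none), ⟨?_, ?_, ?_, ?_, ?_, ?_⟩, ?_⟩
  · apply symDes e hcK
    have : 0 < p ^ r := pow_pos hp.pos r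
    nlinarith
  · intro h
    have := e.injective h
    simp at this
  · rintro h ⟨w, rfl⟩ a
    exact ⟨_, image_blk e w a⟩
  · rintro h ⟨w, rfl⟩
    rw [image_blk, Equiv.symm_apply_apply]
    simp [al]
  · rintro h ⟨w, rfl⟩
    rw [image_blk, Equiv.symm_apply_apply]
    simp [al]
  · intro x y hx hy
    have key : ∀ z, z ∉ blk e (e (Sum.inr (some 0))) ∪ blk e (e (Sum.inr none)) →
        ∃ a b : K, a ≠ 0 ∧ e.symm z = Sum.inl (a, b) := by
      intro z hz
      rw [mem_union, not_or, mem_blk, mem_blk, Equiv.symm_apply_apply,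
        Equiv.symm_apply_apply] at hz
      rcases h : e.symm z with ⟨a, b⟩ | (_ | m)
      · rw [h] at hz
        exact ⟨a, b, fun h0 => hz.1 (by simp [inc, h0]), rfl⟩
      · rw [h] at hz
        exact absurd (by simp [inc]) hz.2
      · rw [h] at hz
        exact absurd (by simp [inc]) hz.2
    obtain ⟨a, b, ha, hx'⟩ := key x hx
    obtain ⟨c, d, hc, hy'⟩ := key y hy
    refine ⟨tf e (Multiplicative.ofAdd (d - b), Units.mk0 (c / a) (div_ne_zero hc ha)),
      ⟨⟨_, rfl⟩, ?_⟩, ?_⟩
    · apply e.symm.injective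
      rw [tf_apply, hx', hy']
      simp only [ap, toAdd_ofAdd, Units.val_mk0, Sum.inl.injEq, Prod.mk.injEq]
      constructor
      · exact div_mul_cancel₀ c ha
      · ring
    · rintro g ⟨⟨w, rfl⟩, hg⟩
      have h1 := congrArg e.symm hg
      rw [tf_apply, hx', hy'] at h1
      simp only [ap, Sum.inl.injEq, Prod.mk.injEq] at h1
      congr 1
      refine Prod.ext ?_ ?_
      · change w.1 = Multiplicative.ofAdd (d - b)
        have : w.1.toAdd = d - b := by rw [← h1.2]; ring
        rw [← this]
        rfl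
      · apply Units.ext
        change (w.2 : K) = c / a
        rw [← h1.1]
        exact (mul_div_cancel_right₀ _ ha).symm
  · exact Group.nilpotent_of_surjective (tf e).rangeRestrict (tf e).rangeRestrict_surjective

end Pool.Agent.Helper31K9.ROL
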