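import Pool.Agent.Helper31K9.RNG.PlaneA
import Pool.Agent.Helper31K9.ROL.Abs2
import Pool.Agent.Helper31K9.ROL.Grp

set_option autoImplicit false
set_option linter.unusedSectionVars false
set_option linter.unusedVariables false

/-!
# Affine planes with a group which is regular off a line
-/

namespace Pool.Agent.Helper31K9.ROL

open Finset
open scoped Pointwise
open Pool.Agent.R116.AF (Aff par par_refl par_symm par_smul NN mem_NN stab_le count_NN Dset orb
  mem_orb card_pairs)
open Pool.Agent.TH66.SG (num cor cor_num sum_num fib)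
open Pool.Agent.Helper31K9.RNG

/-- an affine plane with a group which fixes a line and is regular on the other points -/
structure Off (G V : Type) [Group G] [Fintype V] [DecidableEq V] [MulAction G V] (k : ℕ)
    (B : Finset (Finset V)) (l : Finset V) : Prop where
  aff : Aff k B
  inv : ∀ (g : G), ∀ b ∈ B, g • b ∈ B
  mem : l ∈ B
  fix : ∀ g : G, g • l = l
  tr : ∀ x y : V, x ∉ l → y ∉ l → ∃ g : G, g • x = y
  fr : ∀ (g : G) (x : V), x ∉ l → g • x = x → g = 1

theorem dvd_card_inv {G : Type} [Group G] [Fintype G] [DecidableEq G] (S : Subgroup G)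
    (D : Finset G) (hD : ∀ s ∈ S, ∀ g ∈ D, s * g ∈ D) : Nat.card S ∣ D.card := by
  classical
  rw [Finset.card_eq_sum_card_image (fun g => Quotient.mk (QuotientGroup.rightRel S) g) D]
  refine dvd_sum fun c hc => ?_
  obtain ⟨g0, hg0, rfl⟩ := mem_image.1 hc
  have h1 : (D.filter (fun g => Quotient.mk (QuotientGroup.rightRel S) g =
      Quotient.mk (QuotientGroup.rightRel S) g0)).card = Nat.card S := by
    rw [Nat.card_eq_fintype_card, ← Finset.card_univ]
    symm
    refine card_bij (fun s _ => (s : G) * g0) ?_ ?_ ?_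
    · intro s _
      rw [mem_filter]
      refine ⟨hD s s.2 g0 hg0, Quotient.sound ?_⟩
      change QuotientGroup.rightRel S _ _
      rw [QuotientGroup.rightRel_apply]
      rw [mul_inv_rev, ← mul_assoc, mul_inv_cancel, one_mul]
      exact S.inv_mem s.2
    · intro s _ t _ e
      exact Subtype.ext (mul_right_cancel e)
    · intro g hg
      rw [mem_filter] at hg
      have h2 := Quotient.exact hg.2
      change QuotientGroup.rightRel S _ _ at h2
      rw [QuotientGroup.rightRel_apply] at h2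
      refine ⟨⟨g * g0⁻¹, ?_⟩, mem_univ _, ?_⟩
      · have := S.inv_mem h2
        rwa [mul_inv_rev, inv_inv] at this
      · simp
  rw [h1]

section
variable {V : Type} [Fintype V] [DecidableEq V] {k : ℕ} {B : Finset (Finset V)} {l : Finset V}
variable {G : Type} [Group G] [Fintype G] [DecidableEq G] [MulAction G V]

theorem Off.inj (h : Off G V k B l) {a b : G} {x : V} (hx : x ∉ l) (e : a • x = b • x) :
    a = b := by
  have h2 : (b⁻¹ * a) • x = x := by
    rw [mul_smul, e, inv_smul_smul]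
  have h3 := h.fr _ x hx h2
  rw [inv_mul_eq_one] at h3
  exact h3.symm

theorem Off.mem_iff (h : Off G V k B l) (g : G) (x : V) : g • x ∈ l ↔ x ∈ l := by
  have := h.fix g
  constructor
  · intro h1
    rw [← this] at h1
    obtain ⟨y, hy, e⟩ := mem_smul_finset.1 h1
    rw [← smul_left_cancel g e]
    exact hy
  · intro h1
    rw [← this]
    exact smul_mem_smul_finset h1

theorem Off.exists_off (h : Off G V k B l) : ∃ x : V, x ∉ l := by
  by_contra hcon
  push Not at hcon
  have h1 : l = univ := eq_univ_iff_forall.2 hcon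
  have h2 := h.aff.size l h.mem
  rw [h1, card_univ, h.aff.card] at h2
  have := h.aff.two
  nlinarith

theorem Off.card_G (h : Off G V k B l) : Nat.card G + k = k ^ 2 := by
  obtain ⟨x0, hx0⟩ := h.exists_off
  have h1 : Fintype.card G = (univ \ l).card := by
    rw [← card_univ]
    refine card_bij (fun g _ => g • x0) ?_ ?_ ?_
    · intro g _
      rw [mem_sdiff]
      exact ⟨mem_univ _, fun h1 => hx0 ((h.mem_iff g x0).1 h1)⟩
    · intro a _ b _ e
      exact h.inj hx0 e
    · intro y hy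
      rw [mem_sdiff] at hy
      obtain ⟨g, hg⟩ := h.tr x0 y hx0 hy.2
      exact ⟨g, mem_univ _, hg⟩
  rw [card_sdiff_of_subset (subset_univ l), card_univ, h.aff.card, h.aff.size l h.mem] at h1
  rw [Nat.card_eq_fintype_card, h1]
  have := h.aff.two
  have : k ≤ k ^ 2 := by nlinarith
  omega

theorem Off.point (h : Off G V k B l) {L : Finset V} (hL : L ∈ B) (hpar : ¬ par L l) :
    ∃ z, z ∈ L ∧ z ∈ l ∧ ∀ y ∈ L, y ∈ l → y = z := by
  obtain ⟨h1, z, hz, hz'⟩ := h.aff.not_par hpar
  exact ⟨z, hz, hz', fun y hy hy' => h.aff.inter hL h.mem h1 hy hy' hz hz'⟩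

theorem Off.card_D (h : Off G V k B l) {L : Finset V} (hL : L ∈ B) {z : V} (hz : z ∈ L)
    (hzl : z ∈ l) (hzu : ∀ y ∈ L, y ∈ l → y = z) {x0 : V} (hx0 : x0 ∉ l) :
    (Dset G x0 L).card = k - 1 := by
  rw [← h.aff.size L hL, ← card_erase_of_mem hz]
  refine card_bij (fun g _ => g • x0) ?_ ?_ ?_
  · intro g hg
    have h1 := (mem_filter.1 hg).2
    rw [mem_erase]
    refine ⟨fun e => hx0 ((h.mem_iff g x0).1 (by rw [e]; exact hzl)), h1⟩
  · intro a _ b _ e
    exact h.inj hx0 e
  · intro y hy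
    rw [mem_erase] at hy
    obtain ⟨g, hg⟩ := h.tr x0 y hx0 (fun h1 => hy.1 (hzu y hy.2 h1))
    exact ⟨g, mem_filter.2 ⟨mem_univ _, by rw [hg]; exact hy.2⟩, hg⟩

/-- the correlation on the group -/
theorem Off.pairs (h : Off G V k B l) {L : Finset V} (hL : L ∈ B) {z : V} (hz : z ∈ L)
    (hzl : z ∈ l) (hzu : ∀ y ∈ L, y ∈ l → y = z) {x0 : V} (hx0 : x0 ∉ l) (g : G) :
    ((((Dset G x0 L ×ˢ Dset G x0 L).filter (fun p : G × G => p.1 * p.2⁻¹ = g)).card : ℕ) : ℤ) =
      k * jnd (MulAction.stabilizer G L) g - jnd (NN h.aff h.inv L hL) g -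
        jnd (MulAction.stabilizer G z) g + jnd (⊤ : Subgroup G) g := by
  rw [card_pairs (fun g hg => h.fr g x0 hx0 hg), jnd_of_mem (Subgroup.mem_top g)]
  have horb : ∀ y, y ∈ orb G x0 ↔ y ∉ l := by
    intro y
    rw [mem_orb]
    constructor
    · rintro ⟨g, rfl⟩ h1
      exact hx0 ((h.mem_iff g x0).1 h1)
    · intro h1
      exact h.tr x0 y hx0 h1
  have e0 : (L.filter (fun y => y ∈ orb G x0 ∧ g • y ∈ L)).card +
      (if g ∈ MulAction.stabilizer G z then 1 else 0) = (L.filter (fun y => g • y ∈ L)).card := by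
    have e1 : (L.filter (fun y => y ∈ l ∧ g • y ∈ L)).card =
        (if g ∈ MulAction.stabilizer G z then 1 else 0) := by
      split_ifs with h1
      · rw [MulAction.mem_stabilizer_iff] at h1
        rw [card_eq_one]
        refine ⟨z, ?_⟩
        ext y
        rw [mem_filter, mem_singleton]
        constructor
        · rintro ⟨h2, h3, -⟩
          exact hzu y h2 h3
        · rintro rfl
          exact ⟨hz, hzl, by rw [h1]; exact hz⟩
      · rw [card_eq_zero, filter_eq_empty_iff]
        rintro y hy ⟨h2, h3⟩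
        have h4 := hzu y hy h2
        subst h4
        exact h1 (MulAction.mem_stabilizer_iff.2 (hzu _ h3 ((h.mem_iff g y).2 h2)))
    rw [← e1, ← card_union_of_disjoint]
    · congr 1
      ext y
      simp only [mem_union, mem_filter, horb]
      tauto
    · rw [disjoint_left]
      intro y hy hy'
      rw [mem_filter] at hy hy'
      exact (horb y).1 hy.2.1 hy'.2.1
  have e2 : (((L.filter (fun y => y ∈ orb G x0 ∧ g • y ∈ L)).card : ℕ) : ℤ) =
      (((L.filter (fun y => g • y ∈ L)).card : ℕ) : ℤ) - jnd (MulAction.stabilizer G z) g := by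
    rw [← e0]
    unfold jnd
    push_cast
    split_ifs <;> ring
  rw [e2, h.aff.moved h.inv hL g]
  by_cases h1 : g • L = L
  · rw [if_pos h1, jnd_of_mem ((mem_NN h.aff h.inv hL).2 (by rw [h1]; exact par_refl L)),
      jnd_of_mem (MulAction.mem_stabilizer_iff.2 h1), mul_one]
    ring
  · rw [if_neg h1, jnd_of_not (fun h2 => h1 (MulAction.mem_stabilizer_iff.1 h2)), mul_zero]
    by_cases h2 : par (g • L) L
    · rw [if_pos h2, jnd_of_mem ((mem_NN h.aff h.inv hL).2 h2)]
      push_cast
      ring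
    · rw [if_neg h2, jnd_of_not (fun h3 => h2 ((mem_NN h.aff h.inv hL).1 h3))]
      push_cast
      ring

theorem Off.count (h : Off G V k B l) {L : Finset V} (hL : L ∈ B) {z : V} (hz : z ∈ L)
    (hzl : z ∈ l) (hzu : ∀ y ∈ L, y ∈ l → y = z) {x0 : V} (hx0 : x0 ∉ l) :
    Nat.card (NN h.aff h.inv L hL) + Nat.card (MulAction.stabilizer G z) + 1 =
      k * Nat.card (MulAction.stabilizer G L) + k := by
  have h1 : ∑ g : G,
      ((((Dset G x0 L ×ˢ Dset G x0 L).filter (fun p : G × G => p.1 * p.2⁻¹ = g)).card : ℕ) : ℤ) =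
      (((Dset G x0 L ×ˢ Dset G x0 L).card : ℕ) : ℤ) := by
    rw [card_eq_sum_card_fiberwise (f := fun p : G × G => p.1 * p.2⁻¹) (t := univ)
      (fun _ _ => mem_univ _)]
    push_cast
    rfl
  rw [sum_congr rfl fun g _ => h.pairs hL hz hzl hzu hx0 g, sum_add_distrib, sum_sub_distrib,
    sum_sub_distrib, ← mul_sum, sum_jnd, sum_jnd, sum_jnd, sum_jnd, Subgroup.card_top,
    card_product, h.card_D hL hz hzl hzu hx0] at h1
  have h2 := h.card_G
  have h3 := h.aff.two
  zify at h2
  have h4 : ((k - 1 : ℕ) : ℤ) = k - 1 := by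
    push_cast [Nat.cast_sub (show 1 ≤ k by omega)]
    ring
  push_cast [h4] at h1
  zify
  linear_combination (-1 : ℤ) * h1 + h2

theorem Off.stab_dvd (h : Off G V k B l) {L : Finset V} (hL : L ∈ B) {z : V} (hz : z ∈ L)
    (hzl : z ∈ l) (hzu : ∀ y ∈ L, y ∈ l → y = z) {x0 : V} (hx0 : x0 ∉ l) :
    Nat.card (MulAction.stabilizer G L) ∣ k - 1 := by
  rw [← h.card_D hL hz hzl hzu hx0]
  apply dvd_card_inv
  intro s hs g hg
  have h1 := (mem_filter.1 hg).2
  refine mem_filter.2 ⟨mem_univ _, ?_⟩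
  rw [MulAction.mem_stabilizer_iff] at hs
  rw [mul_smul, ← hs]
  exact smul_mem_smul_finset h1

theorem Off.bdZ (h : Off G V k B l) {z : V} (hzl : z ∈ l) :
    Nat.card G ≤ k * Nat.card (MulAction.stabilizer G z) := by
  classical
  have h1 := MulAction.card_orbit_mul_card_stabilizer_eq_card_group G z
  rw [← Nat.card_eq_fintype_card, ← Nat.card_eq_fintype_card, ← Nat.card_eq_fintype_card] at h1
  rw [← h1]
  apply Nat.mul_le_mul_right
  rw [← h.aff.size l h.mem, Nat.card_coe_set_eq, ← Set.ncard_coe_finset]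
  apply Set.ncard_le_ncard _ (finite_toSet l)
  rintro y ⟨g, rfl⟩
  exact mem_coe.2 ((h.mem_iff g z).2 hzl)

theorem Off.bdN (h : Off G V k B l) {L : Finset V} (hL : L ∈ B) (hpar : ¬ par L l) {w : V}
    (hw : w ∈ l) : Nat.card G ≤ k * Nat.card (NN h.aff h.inv L hL) := by
  classical
  set N := NN h.aff h.inv L hL with hN
  have h1 : N.index ≤ k := by
    have hc : ((B.filter (fun b => w ∈ b)).erase l).card = k := by
      rw [card_erase_of_mem (mem_filter.2 ⟨h.mem, hw⟩), h.aff.deg w]
      rfl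
    rw [Subgroup.index_eq_card, ← hc, Nat.card_eq_fintype_card, ← card_univ]
    have hex : ∀ g : G, ∃ b ∈ B, w ∈ b ∧ par b (g • L) := fun g =>
      h.aff.par_exists (h.inv g L hL) w
    refine card_le_card_of_injOn (fun q => (hex q.out).choose) ?_ ?_
    · intro q _
      obtain ⟨h2, h3, h4⟩ := (hex q.out).choose_spec
      rw [mem_coe, mem_erase, mem_filter]
      refine ⟨fun e => hpar ?_, h2, h3⟩
      have e' : (hex q.out).choose = l := e
      rw [e'] at h4
      have h5 : par (q.out⁻¹ • l) (q.out⁻¹ • q.out • L) := par_smul q.out⁻¹ h4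
      rw [inv_smul_smul, h.fix] at h5
      exact par_symm h5
    · intro q _ q' _ e
      obtain ⟨h2, h3, h4⟩ := (hex q.out).choose_spec
      obtain ⟨h2', h3', h4'⟩ := (hex q'.out).choose_spec
      simp only at e
      rw [← e] at h2' h3' h4'
      have h5 : par (q'.out • L) (q.out • L) :=
        h.aff.par_trans (h.inv _ L hL) h2' (h.inv _ L hL) (par_symm h4') h4
      have h6 : par (q'.out⁻¹ • q'.out • L) (q'.out⁻¹ • q.out • L) := par_smul q'.out⁻¹ h5
      rw [inv_smul_smul, ← mul_smul] at h6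
      have h7 : q'.out⁻¹ * q.out ∈ N := (mem_NN h.aff h.inv hL).2 (par_symm h6)
      have h8 := QuotientGroup.eq.2 h7
      rw [QuotientGroup.out_eq', QuotientGroup.out_eq'] at h8
      exact h8.symm
  rw [← N.card_mul_index, mul_comm]
  exact Nat.mul_le_mul_right _ h1

open Classical in
/-- the lines through a point which are fixed by a nontrivial element of a subgroup -/
theorem Off.card_bad (h : Off G V k B l) {x0 : V} (hx0 : x0 ∉ l) (H : Subgroup G) :
    (B.filter (fun L => x0 ∈ L ∧ ∃ g ∈ H, g ≠ 1 ∧ g • L = L)).card ≤ Nat.card H - 1 := by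
  have h1 : ((univ.filter (fun g => g ∈ H)).erase 1).card = Nat.card H - 1 := by
    rw [card_erase_of_mem (mem_filter.2 ⟨mem_univ _, H.one_mem⟩), Nat.card_eq_fintype_card,
      Fintype.card_subtype]
  rw [← h1]
  refine card_le_card_of_injOn
    (fun L => if hL : ∃ g ∈ H, g ≠ 1 ∧ g • L = L then hL.choose else 1) ?_ ?_
  · intro L hL
    rw [mem_coe, mem_filter] at hL
    simp only [dif_pos hL.2.2]
    have h2 := hL.2.2.choose_spec
    rw [mem_coe, mem_erase, mem_filter]
    exact ⟨h2.2.1, mem_univ _, h2.1⟩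
  · intro L hL L' hL' e
    rw [mem_coe, mem_filter] at hL hL'
    simp only [dif_pos hL.2.2, dif_pos hL'.2.2] at e
    have h2 := hL.2.2.choose_spec
    have h3 := hL'.2.2.choose_spec
    set g := hL.2.2.choose with hg
    rw [← e] at h3
    by_contra hne
    have h4 : g • x0 ∈ g • L := smul_mem_smul_finset hL.2.1
    rw [h2.2.2] at h4
    have h5 : g • x0 ∈ g • L' := smul_mem_smul_finset hL'.2.1
    rw [h3.2.2] at h5
    have h6 : g • x0 = x0 := h.aff.inter hL.1 hL'.1 hne h4 h5 hL.2.1 hL'.2.1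
    exact h2.2.1 (h.fr g x0 hx0 h6)

/-- a line with trivial stabilizer -/
theorem Off.free_line [Group.IsNilpotent G] (h : Off G V k B l) {x0 : V} (hx0 : x0 ∉ l) :
    ∃ L ∈ B, x0 ∈ L ∧ ¬ par L l ∧ MulAction.stabilizer G L = ⊥ := by
  classical
  by_contra hcon
  push Not at hcon
  have hk2 := h.aff.two
  have hG : Nat.card G = k * (k - 1) := by
    have h1 := h.card_G
    have h2 : k ^ 2 = k * (k - 1) + k := by
      obtain ⟨j, rfl⟩ := Nat.exists_eq_add_of_le hk2
      have : 2 + j - 1 = j + 1 := by omega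
      rw [this]
      ring
    omega
  have hcop : k.Coprime (k - 1) := by
    have : k = (k - 1) + 1 := by omega
    conv_lhs => rw [this]
    exact (Nat.coprime_self_add_left (m := k - 1) (n := 1)).2 (Nat.coprime_one_left _)
  obtain ⟨H, -, hH, hsub⟩ := hall G hG hcop
  have h2 := h.card_bad hx0 H
  have h3 := h.aff.deg x0
  have h4 : B.filter (fun b => x0 ∈ b) ⊆
      B.filter (fun b => x0 ∈ b ∧ par b l) ∪
      B.filter (fun L => x0 ∈ L ∧ ∃ g ∈ H, g ≠ 1 ∧ g • L = L) := by
    intro L hL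
    rw [mem_filter] at hL
    rw [mem_union, mem_filter, mem_filter]
    by_cases h5 : par L l
    · exact Or.inl ⟨hL.1, hL.2, h5⟩
    · right
      refine ⟨hL.1, hL.2, ?_⟩
      obtain ⟨g, hg, hg1⟩ := (Subgroup.bot_or_exists_ne_one _).resolve_left
        (hcon L hL.1 hL.2 h5)
      obtain ⟨z, hz, hzl, hzu⟩ := h.point hL.1 h5
      have h6 := h.stab_dvd hL.1 hz hzl hzu hx0
      exact ⟨g, hsub _ (Nat.Coprime.coprime_dvd_left h6 hcop.symm) hg, hg1,
        MulAction.mem_stabilizer_iff.1 hg⟩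
  have h5 : (B.filter (fun b => x0 ∈ b ∧ par b l)).card ≤ 1 := by
    rw [card_le_one]
    intro b hb c hc
    rw [mem_filter] at hb hc
    exact h.aff.par_unique h.mem hb.1 hc.1 hb.2.2 hc.2.2 hb.2.1 hc.2.1
  have h6 := (card_le_card h4).trans (card_union_le _ _)
  rw [h3] at h6
  have h7 : k + 1 ≤ 1 + (k - 1 - 1) := by
    refine h6.trans ?_
    apply add_le_add
    · convert h5
    · rw [hH] at h2
      convert h2
  omega

/-- the structure of the group -/
theorem Off.struct [Group.IsNilpotent G] (h : Off G V k B l) :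
    ∃ (D : Finset G) (N₁ N₂ : Subgroup G), Nat.card N₁ = k ∧ Nat.card N₂ = k - 1 ∧
      D.card = k - 1 ∧ Nat.card G = k * (k - 1) ∧ ∀ g : G,
      ((((D ×ˢ D).filter (fun p : G × G => p.1 * p.2⁻¹ = g)).card : ℕ) : ℤ) =
      k * jnd (⊥ : Subgroup G) g - jnd N₁ g - jnd N₂ g + jnd (⊤ : Subgroup G) g := by
  classical
  have hk2 := h.aff.two
  have hG : Nat.card G = k * (k - 1) := by
    have h1 := h.card_G
    have h2 : k ^ 2 = k * (k - 1) + k := by
      obtain ⟨j, rfl⟩ := Nat.exists_eq_add_of_le hk2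
      have : 2 + j - 1 = j + 1 := by omega
      rw [this]
      ring
    omega
  obtain ⟨x0, hx0⟩ := h.exists_off
  obtain ⟨L, hL, -, hpar, hst⟩ := h.free_line hx0
  obtain ⟨z, hz, hzl, hzu⟩ := h.point hL hpar
  have h1 := h.count hL hz hzl hzu hx0
  have h2 := h.bdZ hzl
  have h3 := h.bdN hL hpar hzl
  rw [hst, Subgroup.card_bot, mul_one] at h1
  rw [hG] at h2 h3
  have h4 := Nat.le_of_mul_le_mul_left h2 (by omega)
  have h5 := Nat.le_of_mul_le_mul_left h3 (by omega)
  have h6 := h.card_D hL hz hzl hzu hx0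
  have h7 : (Nat.card (NN h.aff h.inv L hL) = k ∧ Nat.card (MulAction.stabilizer G z) = k - 1) ∨
      (Nat.card (MulAction.stabilizer G z) = k ∧ Nat.card (NN h.aff h.inv L hL) = k - 1) := by
    omega
  rcases h7 with ⟨h8, h9⟩ | ⟨h8, h9⟩
  · refine ⟨Dset G x0 L, _, _, h8, h9, h6, hG, fun g => ?_⟩
    rw [h.pairs hL hz hzl hzu hx0 g, hst]
  · refine ⟨Dset G x0 L, _, _, h8, h9, h6, hG, fun g => ?_⟩
    rw [h.pairs hL hz hzl hzu hx0 g, hst]
    ring

end

end Pool.Agent.Helper31K9.ROL
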